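import Mathlib

set_option autoImplicit false

namespace Pool.Agent.Helper46.Balanced

open MeasureTheory Set Filter Topology ProbabilityTheory

/-- A measurable self map `K` with a countable labelling, such that conditionally on each label
the image is distributed according to the initial measure. -/
structure Branch {Ω ι : Type*} [MeasurableSpace Ω] (μ : Measure Ω) (lab : Ω → ι) (K : Ω → Ω) :
    Prop where
  mlab : ∀ i, MeasurableSet (lab ⁻¹' {i})
  mK : Measurable K
  br : ∀ i E, MeasurableSet E → μ (lab ⁻¹' {i} ∩ K ⁻¹' E) = μ (lab ⁻¹' {i}) * μ E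

namespace Branch

variable {Ω ι : Type*} [MeasurableSpace Ω] [Countable ι] {μ : Measure Ω}
  {lab : Ω → ι} {K : Ω → Ω}

theorem measSet (h : Branch μ lab K) (A : Set ι) : MeasurableSet (lab ⁻¹' A) := by
  have : lab ⁻¹' A = ⋃ i ∈ A, lab ⁻¹' {i} := by ext ω; simp
  rw [this]
  exact MeasurableSet.biUnion (Set.to_countable A) fun i _ => h.mlab i

theorem meas (h : Branch μ lab K) {X : Type*} [MeasurableSpace X] (f : ι → X) :
    Measurable (fun ω => f (lab ω)) := by
  intro s _
  exact h.measSet (f ⁻¹' s)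

theorem setBr (h : Branch μ lab K) (A : Set ι) (E : Set Ω) (hE : MeasurableSet E) :
    μ (lab ⁻¹' A ∩ K ⁻¹' E) = μ (lab ⁻¹' A) * μ E := by
  have h1 : lab ⁻¹' A = ⋃ i ∈ A, lab ⁻¹' {i} := by ext ω; simp
  have hd : A.PairwiseDisjoint fun i => lab ⁻¹' {i} := by
    intro i _ j _ hij
    rw [Function.onFun, Set.disjoint_left]
    intro ω h1 h2
    exact hij (h1.symm.trans h2)
  have h2 : lab ⁻¹' A ∩ K ⁻¹' E = ⋃ i ∈ A, (lab ⁻¹' {i} ∩ K ⁻¹' E) := by
    ext ω; simp
  rw [h2, measure_biUnion (Set.to_countable A) (fun i hi j hj hij =>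
      (hd hi hj hij).mono inter_subset_left inter_subset_left)
      (fun i _ => (h.mlab i).inter (h.mK hE)), h1,
    measure_biUnion (Set.to_countable A) hd (fun i _ => h.mlab i), ← ENNReal.tsum_mul_right]
  exact tsum_congr fun i => h.br i E hE

theorem mp [IsProbabilityMeasure μ] (h : Branch μ lab K) : MeasurePreserving K μ μ := by
  refine ⟨h.mK, ?_⟩
  ext E hE
  rw [Measure.map_apply h.mK hE]
  have := h.setBr univ E hE
  simpa using this

theorem slln [IsProbabilityMeasure μ] (h : Branch μ lab K) (f : ι → ℝ)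
    (hf : Integrable (fun ω => f (lab ω)) μ) :
    ∀ᵐ ω ∂μ, Tendsto (fun n : ℕ => (∑ i ∈ Finset.range n, f (lab (K^[i] ω))) / n) atTop
      (𝓝 (∫ ω, f (lab ω) ∂μ)) := by
  have hm : ∀ n, MeasurePreserving (K^[n]) μ μ := fun n => h.mp.iterate n
  have hX : ∀ n, Measurable (fun ω => f (lab (K^[n] ω))) := fun n =>
    (h.meas f).comp (hm n).measurable
  have hid : ∀ i, IdentDistrib (fun ω => f (lab (K^[i] ω))) (fun ω => f (lab (K^[0] ω))) μ μ := by
    intro i
    refine ⟨(hX i).aemeasurable, (hX 0).aemeasurable, ?_⟩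
    have h1 : (fun ω => f (lab (K^[i] ω))) = (fun ω => f (lab ω)) ∘ (K^[i]) := rfl
    rw [h1, ← Measure.map_map (h.meas f) (hm i).measurable, (hm i).map_eq]
    rfl
  have key : ∀ i d : ℕ, IndepFun (fun ω => f (lab (K^[i] ω)))
      (fun ω => f (lab (K^[i + (d + 1)] ω))) μ := by
    intro i d
    rw [indepFun_iff_measure_inter_preimage_eq_mul]
    intro s t hs ht
    have e1 : (fun ω => f (lab (K^[i] ω))) ⁻¹' s = K^[i] ⁻¹' (lab ⁻¹' (f ⁻¹' s)) := rfl
    have e2 : (fun ω => f (lab (K^[i + (d + 1)] ω))) ⁻¹' t =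
        K^[i] ⁻¹' (K ⁻¹' ((fun ω => f (lab (K^[d] ω))) ⁻¹' t)) := by
      ext ω
      simp only [mem_preimage]
      rw [show i + (d + 1) = d + 1 + i by ring, Function.iterate_add_apply,
        Function.iterate_succ_apply]
    rw [e1, e2, ← preimage_inter, (hm i).measure_preimage, (hm i).measure_preimage,
      (hm i).measure_preimage, h.mp.measure_preimage, h.setBr _ _ (hX d ht)]
    · exact (hX d ht).nullMeasurableSet
    · exact (h.mK (hX d ht)).nullMeasurableSet
    · exact (h.measSet _).nullMeasurableSet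
    · exact ((h.measSet _).inter (h.mK (hX d ht))).nullMeasurableSet
  have hind : Pairwise (fun i j => IndepFun (fun ω => f (lab (K^[i] ω)))
      (fun ω => f (lab (K^[j] ω))) μ) := by
    intro i j hij
    rcases lt_or_gt_of_ne hij with hlt | hlt
    · obtain ⟨d, rfl⟩ := Nat.exists_eq_add_of_lt hlt
      exact key i d
    · obtain ⟨d, rfl⟩ := Nat.exists_eq_add_of_lt hlt
      exact (key j d).symm
  exact strong_law_ae_real (fun n ω => f (lab (K^[n] ω))) hf hind hid

end Branch

end Pool.Agent.Helper46.Balanced
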