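import Mathlib

set_option autoImplicit false

namespace Pool.Agent.Helper46.Balanced

open Filter Topology

/-- `ε` is an expansion of `x` in base `β` with digits in `{0, ..., ⌊β⌋}`. -/
def IsExpansion (β : ℝ) (ε : ℕ → ℕ) (x : ℝ) : Prop :=
  (∀ i, ε i ≤ ⌊β⌋₊) ∧ HasSum (fun i => (ε i : ℝ) / β ^ (i + 1)) x

/-- The digit `k` has frequency `p` in the sequence `ε`. -/
def HasFreq (ε : ℕ → ℕ) (k : ℕ) (p : ℝ) : Prop :=
  Tendsto (fun n : ℕ => (((Finset.range n).filter (fun i => ε i = k)).card : ℝ) / n) atTop (𝓝 p)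

/-- `ε` is balanced: every digit `k` in `{0, ..., m}` has a frequency, equal to that of `m - k`. -/
def IsBalanced (m : ℕ) (ε : ℕ → ℕ) : Prop :=
  ∀ k ≤ m, ∃ p : ℝ, HasFreq ε k p ∧ HasFreq ε (m - k) p

end Pool.Agent.Helper46.Balanced
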