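import Mathlib

set_option autoImplicit false

namespace Pool.Agent.Helper46.Balanced

open MeasureTheory Set Filter Topology

section words

variable (β α : ℝ) (m : ℕ)

/-- Apply the affine maps `y ↦ β y + α - k` along the word. -/
def act : List ℕ → ℝ → ℝ
  | [], y => y
  | k :: w, y => act w (β * y + α - k)

/-- The image of the interval `p` under the branch `k`, cut to `[0,1)`. -/
noncomputable def st (p : ℝ × ℝ) (k : ℕ) : ℝ × ℝ :=
  (max (β * p.1 + α - k) 0, min (β * p.2 + α - k) 1)

/-- Words of the first return to the full interval, starting from the interval `p`. -/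
def Ret : List ℕ → ℝ × ℝ → Prop
  | [], _ => False
  | k :: w, p => k ≤ m ∧ ((st β α p k = (0, 1) ∧ w = []) ∨
      (st β α p k ≠ (0, 1) ∧ Ret w (st β α p k)))

variable {β α m}

theorem act_affine (w : List ℕ) :
    ∃ c : ℝ, ∀ y, act β α w y = β ^ w.length * y + c := by
  induction w with
  | nil => exact ⟨0, fun y => by simp [act]⟩
  | cons k w ih =>
    obtain ⟨c, hc⟩ := ih
    refine ⟨β ^ w.length * (α - k) + c, fun y => ?_⟩
    rw [act, hc, List.length_cons, pow_succ]
    ring

theorem Ret.mem (hβ : 0 < β) : ∀ (w : List ℕ) (p : ℝ × ℝ) (y : ℝ), Ret β α m w p →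
    act β α w y ∈ Ico (0 : ℝ) 1 → y ∈ Ico p.1 p.2 := by
  intro w
  induction w with
  | nil => intro p y h _; exact h.elim
  | cons k w ih =>
    rintro p y ⟨hk, ⟨h1, rfl⟩ | ⟨h1, h2⟩⟩ hy
    · rw [act, act] at hy
      have e1 := congrArg Prod.fst h1
      have e2 := congrArg Prod.snd h1
      simp only [st] at e1 e2
      have f1 : β * p.1 + α - k ≤ 0 := by
        rw [← e1]; exact le_max_left _ _
      have f2 : 1 ≤ β * p.2 + α - k := by
        rw [← e2]; exact min_le_left _ _
      obtain ⟨hy1, hy2⟩ := hy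
      constructor
      · by_contra hcon
        push Not at hcon
        nlinarith
      · by_contra hcon
        push Not at hcon
        nlinarith
    · rw [act] at hy
      have := ih _ _ h2 hy
      simp only [st, mem_Ico, max_le_iff, lt_min_iff] at this
      obtain ⟨⟨a1, a2⟩, a3, a4⟩ := this
      constructor
      · by_contra hcon
        push Not at hcon
        nlinarith
      · by_contra hcon
        push Not at hcon
        nlinarith

theorem Ret.step (hβ : 0 < β) {k : ℕ} {w : List ℕ} {p : ℝ × ℝ} {y : ℝ}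
    (h : Ret β α m (k :: w) p) (hy : act β α (k :: w) y ∈ Ico (0 : ℝ) 1) :
    β * y + α - k ∈ Ico (0 : ℝ) 1 := by
  obtain ⟨hk, ⟨h1, rfl⟩ | ⟨h1, h2⟩⟩ := h
  · exact hy
  · have := Ret.mem hβ w _ _ h2 hy
    simp only [st, mem_Ico, max_le_iff, lt_min_iff] at this
    exact ⟨this.1.2, this.2.2⟩

theorem digit_eq {a : ℝ} {k l : ℕ} (h1 : a - k ∈ Ico (0 : ℝ) 1) (h2 : a - l ∈ Ico (0 : ℝ) 1) :
    k = l := by
  obtain ⟨a1, a2⟩ := h1
  obtain ⟨b1, b2⟩ := h2
  have h3 : (k : ℝ) < l + 1 := by linarith
  have h4 : (l : ℝ) < k + 1 := by linarith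
  have h5 : k < l + 1 := by exact_mod_cast h3
  have h6 : l < k + 1 := by exact_mod_cast h4
  omega

theorem Ret.uniq (hβ : 0 < β) : ∀ (w w' : List ℕ) (p : ℝ × ℝ) (y : ℝ), Ret β α m w p →
    Ret β α m w' p → act β α w y ∈ Ico (0 : ℝ) 1 → act β α w' y ∈ Ico (0 : ℝ) 1 → w = w' := by
  intro w
  induction w with
  | nil => intro w' p y h _ _ _; exact h.elim
  | cons k w ih =>
    intro w' p y h h' hy hy'
    cases w' with
    | nil => exact h'.elim
    | cons k' w' =>
      have e : k = k' := digit_eq (Ret.step hβ h hy) (Ret.step hβ h' hy')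
      subst e
      obtain ⟨_, ⟨h1, rfl⟩ | ⟨h1, h2⟩⟩ := h
      · obtain ⟨_, ⟨h3, rfl⟩ | ⟨h3, h4⟩⟩ := h'
        · rfl
        · exact absurd h1 h3
      · obtain ⟨_, ⟨h3, rfl⟩ | ⟨h3, h4⟩⟩ := h'
        · exact absurd h3 h1
        · rw [ih w' _ _ h2 h4 hy hy']

theorem Ret.digits_le : ∀ (w : List ℕ) (p : ℝ × ℝ), Ret β α m w p → ∀ k ∈ w, k ≤ m := by
  intro w
  induction w with
  | nil => intro p h; exact h.elim
  | cons k w ih =>
    rintro p ⟨hk, h⟩ l hl
    rcases List.mem_cons.1 hl with rfl | hl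
    · exact hk
    · rcases h with ⟨_, rfl⟩ | ⟨_, h2⟩
      · simp at hl
      · exact ih _ h2 l hl

theorem Ret.ne_nil {w : List ℕ} {p : ℝ × ℝ} (h : Ret β α m w p) : w ≠ [] := by
  rintro rfl
  exact h

/-- The points of the interval `p` which are not in the cylinder of a return word of length at
most `n`. -/
def tail (β α : ℝ) (m : ℕ) (n : ℕ) (p : ℝ × ℝ) : Set ℝ :=
  {y | y ∈ Ico p.1 p.2 ∧ ∀ w, Ret β α m w p → act β α w y ∈ Ico (0 : ℝ) 1 → n < w.length}

theorem vol_pre (hβ : 0 < β) (c : ℝ) (S : Set ℝ) :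
    volume ((fun y => β * y + c) ⁻¹' S) = ENNReal.ofReal β⁻¹ * volume S := by
  have h1 : (fun y => β * y + c) ⁻¹' S = (β * ·) ⁻¹' ((· + c) ⁻¹' S) := rfl
  rw [h1, Real.volume_preimage_mul_left hβ.ne', measure_preimage_add_right,
    abs_of_pos (inv_pos.2 hβ)]

theorem tail_vol (hβ : 2 < β) (hα : 0 < α) (hm : β + 2 * α = m + 1) (n : ℕ) :
    ∀ p : ℝ × ℝ, 0 ≤ p.1 → p.2 ≤ 1 →
      volume (tail β α m n p) ≤ ENNReal.ofReal ((2 / β) ^ n) := by
  have hβ0 : 0 < β := by linarith
  induction n with
  | zero =>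
    intro p h0 h1
    calc volume (tail β α m 0 p) ≤ volume (Ico p.1 p.2) := measure_mono fun y hy => hy.1
      _ ≤ ENNReal.ofReal ((2 / β) ^ 0) := by
        rw [Real.volume_Ico, pow_zero]
        exact ENNReal.ofReal_le_ofReal (by linarith)
  | succ n ih =>
    intro p h0 h1
    obtain ⟨a, ha⟩ : ∃ a : ℕ, a = ⌊β * p.1 + α⌋₊ := ⟨_, rfl⟩
    obtain ⟨b, hb⟩ : ∃ b : ℕ, b = ⌊β * p.2 + α⌋₊ := ⟨_, rfl⟩
    have hsub : tail β α m (n + 1) p ⊆
        ((fun y => β * y + (α - a)) ⁻¹' tail β α m n (st β α p a)) ∪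
        ((fun y => β * y + (α - b)) ⁻¹' tail β α m n (st β α p b)) := by
      rintro y ⟨⟨hy1, hy2⟩, hy3⟩
      have hpos : 0 ≤ β * y + α := by nlinarith
      obtain ⟨k, hk⟩ : ∃ k : ℕ, k = ⌊β * y + α⌋₊ := ⟨_, rfl⟩
      have hk1 : (k : ℝ) ≤ β * y + α := by rw [hk]; exact Nat.floor_le hpos
      have hk2 : β * y + α < k + 1 := by rw [hk]; exact Nat.lt_floor_add_one _
      have hkm : k ≤ m := by
        have : (k : ℝ) < m + 1 := by nlinarith
        have : k < m + 1 := by exact_mod_cast this
        omega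
      have hy' : β * y + (α - k) ∈ Ico (st β α p k).1 (st β α p k).2 := by
        simp only [st, mem_Ico, max_le_iff, lt_min_iff]
        refine ⟨⟨by nlinarith, by linarith⟩, by nlinarith, by linarith⟩
      have hst : st β α p k ≠ (0, 1) := by
        intro hst
        have h2 := hy3 [k] ⟨hkm, Or.inl ⟨hst, rfl⟩⟩ (by
          simp only [act]
          exact ⟨by linarith, by linarith⟩)
        simp at h2
      have htail : β * y + (α - k) ∈ tail β α m n (st β α p k) := by
        refine ⟨hy', fun w hw hw2 => ?_⟩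
        have h2 := hy3 (k :: w) ⟨hkm, Or.inr ⟨hst, hw⟩⟩ (by
          simp only [act]
          rwa [← add_sub_assoc] at hw2)
        simpa using h2
      have hcase : k = a ∨ k = b := by
        by_cases hc1 : β * p.1 + α - k ≤ 0
        · by_cases hc2 : 1 ≤ β * p.2 + α - k
          · exfalso
            apply hst
            simp only [st]
            rw [max_eq_right hc1, min_eq_right hc2]
          · right
            push Not at hc2
            rw [hb]
            symm
            rw [Nat.floor_eq_iff (by nlinarith)]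
            constructor
            · nlinarith
            · linarith
        · left
          push Not at hc1
          rw [ha]
          symm
          rw [Nat.floor_eq_iff (by positivity)]
          constructor
          · linarith
          · nlinarith
      rcases hcase with h | h
      · left; rw [← h]; exact htail
      · right; rw [← h]; exact htail
    have hb1 : ∀ k : ℕ, volume (tail β α m n (st β α p k)) ≤ ENNReal.ofReal ((2 / β) ^ n) :=
      fun k => ih _ (le_max_right _ _) (min_le_right _ _)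
    calc volume (tail β α m (n + 1) p)
        ≤ volume ((fun y => β * y + (α - a)) ⁻¹' tail β α m n (st β α p a)) +
          volume ((fun y => β * y + (α - b)) ⁻¹' tail β α m n (st β α p b)) :=
          (measure_mono hsub).trans (measure_union_le _ _)
      _ ≤ ENNReal.ofReal β⁻¹ * ENNReal.ofReal ((2 / β) ^ n) +
          ENNReal.ofReal β⁻¹ * ENNReal.ofReal ((2 / β) ^ n) := by
          rw [vol_pre hβ0, vol_pre hβ0]
          exact add_le_add (mul_le_mul_right (hb1 a) _) (mul_le_mul_right (hb1 b) _)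
      _ = ENNReal.ofReal ((2 / β) ^ (n + 1)) := by
          rw [← ENNReal.ofReal_mul (by positivity), ← ENNReal.ofReal_add (by positivity)
            (by positivity)]
          congr 1
          rw [pow_succ]
          field_simp
          ring

theorem ae_ret (hβ : 2 < β) (hα : 0 < α) (hm : β + 2 * α = m + 1) (p : ℝ × ℝ)
    (h0 : 0 ≤ p.1) (h1 : p.2 ≤ 1) :
    volume {y | y ∈ Ico p.1 p.2 ∧ ∀ w, Ret β α m w p → act β α w y ∉ Ico (0 : ℝ) 1} = 0 := by
  have hle : ∀ n : ℕ, volume {y | y ∈ Ico p.1 p.2 ∧ ∀ w, Ret β α m w p →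
      act β α w y ∉ Ico (0 : ℝ) 1} ≤ ENNReal.ofReal ((2 / β) ^ n) := by
    intro n
    refine (measure_mono ?_).trans (tail_vol hβ hα hm n p h0 h1)
    rintro y ⟨hy1, hy2⟩
    exact ⟨hy1, fun w hw hw2 => absurd hw2 (hy2 w hw)⟩
  have hlim : Tendsto (fun n : ℕ => ENNReal.ofReal ((2 / β) ^ n)) atTop (𝓝 0) := by
    rw [← ENNReal.ofReal_zero]
    refine ENNReal.tendsto_ofReal ?_
    refine tendsto_pow_atTop_nhds_zero_of_lt_one (by positivity) ?_
    rw [div_lt_one (by linarith)]
    exact hβ
  exact le_antisymm (ge_of_tendsto' hlim hle) bot_le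

/-- The reflection of digits. -/
def mir (m k : ℕ) : ℕ := if k ≤ m then m - k else k

theorem mir_mir (m k : ℕ) : mir m (mir m k) = k := by
  unfold mir
  split_ifs <;> omega

theorem mir_of_le {m k : ℕ} (h : k ≤ m) : mir m k = m - k := if_pos h

theorem st_mir (hm : β + 2 * α = m + 1) {k : ℕ} (hk : k ≤ m) (s t : ℝ) :
    st β α (1 - t, 1 - s) (mir m k) = (1 - (st β α (s, t) k).2, 1 - (st β α (s, t) k).1) := by
  rw [mir_of_le hk]
  simp only [st]
  rw [Nat.cast_sub hk]
  have e1 : β * (1 - t) + α - (m - k) = 1 - (β * t + α - k) := by linarith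
  have e2 : β * (1 - s) + α - (m - k) = 1 - (β * s + α - k) := by linarith
  rw [e1, e2]
  have f1 : ∀ a b : ℝ, max (1 - a) b = 1 - min a (1 - b) := by
    intro a b
    rcases le_total a (1 - b) with h | h
    · rw [min_eq_left h, max_eq_left (by linarith)]
    · rw [min_eq_right h, max_eq_right (by linarith)]; ring
  have f2 : ∀ a b : ℝ, min (1 - a) b = 1 - max a (1 - b) := by
    intro a b
    rcases le_total a (1 - b) with h | h
    · rw [max_eq_right h, min_eq_right (by linarith)]; ring
    · rw [max_eq_left h, min_eq_left (by linarith)]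
  rw [f1, f2]
  norm_num

theorem Ret.mirror (hm : β + 2 * α = m + 1) : ∀ (w : List ℕ) (s t : ℝ),
    Ret β α m w (s, t) → Ret β α m (w.map (mir m)) (1 - t, 1 - s) := by
  intro w
  induction w with
  | nil => intro s t h; exact h.elim
  | cons k w ih =>
    rintro s t ⟨hk, h⟩
    rw [List.map_cons]
    refine ⟨?_, ?_⟩
    · rw [mir_of_le hk]; omega
    · rw [st_mir hm hk]
      rcases h with ⟨h1, rfl⟩ | ⟨h1, h2⟩
      · left
        rw [h1]
        simp
      · right
        refine ⟨?_, ih _ _ h2⟩
        intro hcon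
        apply h1
        have g1 := congrArg Prod.fst hcon
        have g2 := congrArg Prod.snd hcon
        simp only at g1 g2
        ext
        · linarith
        · linarith

theorem Ret.mirror_iff (hm : β + 2 * α = m + 1) (w : List ℕ) (s t : ℝ) :
    Ret β α m (w.map (mir m)) (1 - t, 1 - s) ↔ Ret β α m w (s, t) := by
  constructor
  · intro h
    have := Ret.mirror hm _ _ _ h
    rw [List.map_map] at this
    have e : mir m ∘ mir m = id := by
      funext k
      exact mir_mir m k
    rw [e, List.map_id] at this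
    convert this using 2 <;> ring
  · exact Ret.mirror hm w s t

end words

end Pool.Agent.Helper46.Balanced
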