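import Mathlib
import Pool.Agent.Helper46.Balanced.Branch
import Pool.Agent.Helper46.Balanced.Words

set_option autoImplicit false

namespace Pool.Agent.Helper46.Balanced

open MeasureTheory Set Filter Topology

/-- Standing assumptions. -/
structure Par (β α : ℝ) (m : ℕ) : Prop where
  hβ : 2 < β
  hα : 0 < α
  hα2 : α < 1 / 2
  hm : β + 2 * α = m + 1

section system

variable (β α : ℝ) (m : ℕ)

/-- The boundary between the digits `0` and `1`. -/
noncomputable def t1 : ℝ := (1 - α) / β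

/-- The length of the intervals in which the coin is used. -/
noncomputable def dl : ℝ := α / β ^ 2

/-- The admissible labels: a word and a type (`0`: coin not used, `1`, `2`: coin used). -/
def Gd (g : List ℕ × ℕ) : Prop :=
  (g.2 = 0 ∧ (Ret β α m g.1 (0, t1 β α) ∨
      Ret β α m g.1 (t1 β α + dl β α, 1 - (t1 β α + dl β α)) ∨
      Ret β α m g.1 (1 - t1 β α, 1))) ∨
  (g.2 = 1 ∧ (Ret β α m g.1 (t1 β α, t1 β α + dl β α) ∨
      Ret β α m g.1 (1 - (t1 β α + dl β α), 1 - t1 β α))) ∨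
  (g.2 = 2 ∧ ((∃ v, g.1 = 0 :: m :: v ∧ Ret β α m v (1 - α, 1)) ∨
      (∃ v, g.1 = m :: 0 :: v ∧ Ret β α m v (0, α))))

/-- The map on the coin variable. -/
noncomputable def zm (c : ℕ) (z : ℝ) : ℝ := if c = 0 then z else 2 * z - (c - 1)

/-- The rectangle of a label. -/
def rect (g : List ℕ × ℕ) : Set (ℝ × ℝ) :=
  {ω | act β α g.1 ω.1 ∈ Ico (0 : ℝ) 1 ∧ zm g.2 ω.2 ∈ Ico (0 : ℝ) 1}

open Classical in
/-- The label of a point. -/
noncomputable def lab (ω : ℝ × ℝ) : List ℕ × ℕ :=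
  if h : ∃ g, Gd β α m g ∧ ω ∈ rect β α g then Classical.choose h else ([], 0)

/-- The random map. -/
noncomputable def KK (ω : ℝ × ℝ) : ℝ × ℝ :=
  (act β α (lab β α m ω).1 ω.1, zm (lab β α m ω).2 ω.2)

/-- Lebesgue measure on the unit square. -/
noncomputable def mu : Measure (ℝ × ℝ) :=
  (volume.restrict (Ico (0 : ℝ) 1)).prod (volume.restrict (Ico (0 : ℝ) 1))

variable {β α m}

theorem Par.two_le (h : Par β α m) : 2 ≤ m := by
  have h1 := h.hβ
  have h2 := h.hα
  have h3 := h.hm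
  have h4 : (1 : ℝ) < m := by linarith
  have h5 : 1 < m := by exact_mod_cast h4
  omega

theorem Par.t1_pos (h : Par β α m) : 0 < t1 β α := by
  have h1 := h.hβ
  have h2 := h.hα2
  unfold t1
  apply div_pos <;> linarith

theorem Par.dl_pos (h : Par β α m) : 0 < dl β α := by
  have h1 := h.hβ
  have h2 := h.hα
  unfold dl
  positivity

theorem Par.mul_t1 (h : Par β α m) : β * t1 β α = 1 - α := by
  have h1 := h.hβ
  unfold t1
  field_simp

theorem Par.mul_dl (h : Par β α m) : β * (β * dl β α) = α := by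
  have h1 := h.hβ
  unfold dl
  field_simp

theorem Par.lt_half (h : Par β α m) : t1 β α + dl β α < 1 / 2 := by
  have h1 := h.hβ
  have h2 := h.hα
  have h3 := h.hα2
  have e1 := h.mul_t1
  have e2 := h.mul_dl
  by_contra hcon
  push Not at hcon
  have e3 : β * (β * (t1 β α + dl β α)) = β * (1 - α) + α := by
    rw [mul_add, mul_add, e1, e2]
  have e4 : β * (β * (1 / 2)) ≤ β * (β * (t1 β α + dl β α)) := by
    apply mul_le_mul_of_nonneg_left _ (by linarith)
    exact mul_le_mul_of_nonneg_left hcon (by linarith)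
  nlinarith [mul_pos (sub_pos.2 h1) h2]

/-- The point lies in the coin region. -/
def InCoin (β α y : ℝ) : Prop :=
  y ∈ Ico (t1 β α) (t1 β α + dl β α) ∨ y ∈ Ico (1 - (t1 β α + dl β α)) (1 - t1 β α)

theorem mem_two_left (h : Par β α m) {v : List ℕ} {y : ℝ} (hv : Ret β α m v (1 - α, 1))
    (hy : act β α (0 :: m :: v) y ∈ Ico (0 : ℝ) 1) :
    y ∈ Ico (t1 β α) (t1 β α + dl β α) := by
  have h1 := h.hβ
  have e1 := h.mul_t1
  have e2 := h.mul_dl
  have e3 := h.hm
  have hβ0 : 0 < β := by linarith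
  rw [act, act] at hy
  have := Ret.mem hβ0 _ _ _ hv hy
  simp only [mem_Ico, Nat.cast_zero, sub_zero] at this
  obtain ⟨a1, a2⟩ := this
  have f1 : β * (β * t1 β α) = β - β * α := by rw [e1]; ring
  constructor
  · by_contra hcon
    push Not at hcon
    have : β * (β * y) < β * (β * t1 β α) := by
      apply mul_lt_mul_of_pos_left _ hβ0
      exact mul_lt_mul_of_pos_left hcon hβ0
    nlinarith
  · by_contra hcon
    push Not at hcon
    have : β * (β * (t1 β α + dl β α)) ≤ β * (β * y) := by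
      apply mul_le_mul_of_nonneg_left _ hβ0.le
      exact mul_le_mul_of_nonneg_left hcon hβ0.le
    nlinarith

theorem mem_two_right (h : Par β α m) {v : List ℕ} {y : ℝ} (hv : Ret β α m v (0, α))
    (hy : act β α (m :: 0 :: v) y ∈ Ico (0 : ℝ) 1) :
    y ∈ Ico (1 - (t1 β α + dl β α)) (1 - t1 β α) := by
  have h1 := h.hβ
  have e1 := h.mul_t1
  have e2 := h.mul_dl
  have e3 := h.hm
  have hβ0 : 0 < β := by linarith
  rw [act, act] at hy
  have := Ret.mem hβ0 _ _ _ hv hy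
  simp only [mem_Ico, Nat.cast_zero, sub_zero] at this
  obtain ⟨a1, a2⟩ := this
  have f1 : β * (β * t1 β α) = β - β * α := by rw [e1]; ring
  have f2 : β * (m : ℝ) = β * β + 2 * α * β - β := by
    have : (m : ℝ) = β + 2 * α - 1 := by linarith
    rw [this]; ring
  constructor
  · by_contra hcon
    push Not at hcon
    have : β * (β * y) < β * (β * (1 - (t1 β α + dl β α))) := by
      apply mul_lt_mul_of_pos_left _ hβ0
      exact mul_lt_mul_of_pos_left hcon hβ0
    nlinarith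
  · by_contra hcon
    push Not at hcon
    have : β * (β * (1 - t1 β α)) ≤ β * (β * y) := by
      apply mul_le_mul_of_nonneg_left _ hβ0.le
      exact mul_le_mul_of_nonneg_left hcon hβ0.le
    nlinarith

theorem Gd.mem (h : Par β α m) {g : List ℕ × ℕ} (hg : Gd β α m g) {y : ℝ}
    (hy : act β α g.1 y ∈ Ico (0 : ℝ) 1) : y ∈ Ico (0 : ℝ) 1 ∧ (g.2 = 0 ↔ ¬ InCoin β α y) := by
  have hβ0 : 0 < β := by linarith [h.hβ]
  have ht := h.t1_pos
  have hd := h.dl_pos
  have hh := h.lt_half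
  unfold InCoin
  rcases hg with ⟨hc, hg | hg | hg⟩ | ⟨hc, hg | hg⟩ | ⟨hc, ⟨v, hv, hg⟩ | ⟨v, hv, hg⟩⟩
  · have := Ret.mem hβ0 _ _ _ hg hy
    simp only [mem_Ico] at this ⊢
    refine ⟨⟨by linarith, by linarith⟩, ⟨fun _ => ?_, fun _ => hc⟩⟩
    rintro (⟨a, b⟩ | ⟨a, b⟩) <;> linarith
  · have := Ret.mem hβ0 _ _ _ hg hy
    simp only [mem_Ico] at this ⊢
    refine ⟨⟨by linarith, by linarith⟩, ⟨fun _ => ?_, fun _ => hc⟩⟩
    rintro (⟨a, b⟩ | ⟨a, b⟩) <;> linarith
  · have := Ret.mem hβ0 _ _ _ hg hy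
    simp only [mem_Ico] at this ⊢
    refine ⟨⟨by linarith, by linarith⟩, ⟨fun _ => ?_, fun _ => hc⟩⟩
    rintro (⟨a, b⟩ | ⟨a, b⟩) <;> linarith
  · have := Ret.mem hβ0 _ _ _ hg hy
    simp only [mem_Ico] at this ⊢
    refine ⟨⟨by linarith, by linarith⟩, ⟨fun h0 => by omega, fun h0 => ?_⟩⟩
    exact absurd (Or.inl this) h0
  · have := Ret.mem hβ0 _ _ _ hg hy
    simp only [mem_Ico] at this ⊢
    refine ⟨⟨by linarith, by linarith⟩, ⟨fun h0 => by omega, fun h0 => ?_⟩⟩
    exact absurd (Or.inr this) h0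
  · rw [hv] at hy
    have := mem_two_left h hg hy
    simp only [mem_Ico] at this ⊢
    refine ⟨⟨by linarith, by linarith⟩, ⟨fun h0 => by omega, fun h0 => ?_⟩⟩
    exact absurd (Or.inl this) h0
  · rw [hv] at hy
    have := mem_two_right h hg hy
    simp only [mem_Ico] at this ⊢
    refine ⟨⟨by linarith, by linarith⟩, ⟨fun h0 => by omega, fun h0 => ?_⟩⟩
    exact absurd (Or.inr this) h0

theorem Gd.two {g : List ℕ × ℕ} (hg : Gd β α m g) : g.2 = 0 ∨ g.2 = 1 ∨ g.2 = 2 := by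
  rcases hg with ⟨hc, _⟩ | ⟨hc, _⟩ | ⟨hc, _⟩
  · exact Or.inl hc
  · exact Or.inr (Or.inl hc)
  · exact Or.inr (Or.inr hc)

theorem Gd.uniq (h : Par β α m) {g g' : List ℕ × ℕ} (hg : Gd β α m g) (hg' : Gd β α m g')
    {y : ℝ} (hy : act β α g.1 y ∈ Ico (0 : ℝ) 1) (hy' : act β α g'.1 y ∈ Ico (0 : ℝ) 1)
    (hc : g.2 = g'.2) : g = g' := by
  have hβ0 : 0 < β := by linarith [h.hβ]
  have ht := h.t1_pos
  have hd := h.dl_pos
  have hh := h.lt_half
  refine Prod.ext ?_ hc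
  have key : ∀ (p p' : ℝ × ℝ), (p = p' ∨ p.2 ≤ p'.1 ∨ p'.2 ≤ p.1) → ∀ w w' : List ℕ, ∀ x : ℝ,
      Ret β α m w p → Ret β α m w' p' → act β α w x ∈ Ico (0 : ℝ) 1 →
      act β α w' x ∈ Ico (0 : ℝ) 1 → w = w' := by
    intro p p' hpp w w' x hw hw' hx hx'
    have a1 := Ret.mem hβ0 _ _ _ hw hx
    have a2 := Ret.mem hβ0 _ _ _ hw' hx'
    simp only [mem_Ico] at a1 a2
    rcases hpp with rfl | hpp | hpp
    · exact Ret.uniq hβ0 _ _ _ _ hw hw' hx hx'
    · linarith
    · linarith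
  rcases hg with ⟨h0, h1⟩ | ⟨h0, h1⟩ | ⟨h0, h1⟩ <;>
    rcases hg' with ⟨k0, k1⟩ | ⟨k0, k1⟩ | ⟨k0, k1⟩
  · rcases h1 with h1 | h1 | h1 <;> rcases k1 with k1 | k1 | k1 <;>
      refine key _ _ ?_ _ _ _ h1 k1 hy hy' <;>
      first
      | exact Or.inl rfl
      | (refine Or.inr (Or.inl ?_); simp only; linarith)
      | (refine Or.inr (Or.inr ?_); simp only; linarith)
  · omega
  · omega
  · omega
  · rcases h1 with h1 | h1 <;> rcases k1 with k1 | k1 <;>
      refine key _ _ ?_ _ _ _ h1 k1 hy hy' <;>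
      first
      | exact Or.inl rfl
      | (refine Or.inr (Or.inl ?_); simp only; linarith)
      | (refine Or.inr (Or.inr ?_); simp only; linarith)
  · omega
  · omega
  · omega
  · rcases h1 with ⟨v, h1, h2⟩ | ⟨v, h1, h2⟩ <;> rcases k1 with ⟨u, k1, k2⟩ | ⟨u, k1, k2⟩
    · rw [h1] at hy ⊢
      rw [k1] at hy' ⊢
      rw [Ret.uniq hβ0 _ _ _ _ h2 k2 hy hy']
    · rw [h1] at hy
      rw [k1] at hy'
      have a1 := mem_two_left h h2 hy
      have a2 := mem_two_right h k2 hy'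
      simp only [mem_Ico] at a1 a2
      linarith
    · rw [h1] at hy
      rw [k1] at hy'
      have a1 := mem_two_right h h2 hy
      have a2 := mem_two_left h k2 hy'
      simp only [mem_Ico] at a1 a2
      linarith
    · rw [h1] at hy ⊢
      rw [k1] at hy' ⊢
      rw [Ret.uniq hβ0 _ _ _ _ h2 k2 hy hy']

theorem Gd.head (h : Par β α m) {g g' : List ℕ × ℕ} (hg : Gd β α m g) (hg' : Gd β α m g')
    {y : ℝ} (hy : act β α g.1 y ∈ Ico (0 : ℝ) 1) (hc : g.2 = 1) (hc' : g'.2 = 2) :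
    g.1.getD 0 0 ≠ g'.1.getD 0 0 := by
  have h1 := h.hβ
  have hβ0 : 0 < β := by linarith [h.hβ]
  have ht := h.t1_pos
  have hd := h.dl_pos
  have hh := h.lt_half
  have e1 := h.mul_t1
  have e2 := h.mul_dl
  have e3 := h.hm
  have h2m := h.two_le
  have ha := h.hα
  have hbd : β * dl β α < 1 := by
    have : 0 < β * dl β α := by positivity
    nlinarith [h.hα2]
  have hhead : g.1.getD 0 0 = 1 ∨ g.1.getD 0 0 = m - 1 := by
    rcases hg with ⟨h0, _⟩ | ⟨h0, k1⟩ | ⟨h0, _⟩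
    · omega
    · obtain ⟨w, c⟩ := g
      cases w with
      | nil => rcases k1 with k1 | k1 <;> exact k1.elim
      | cons k w =>
        simp only [List.getD_cons_zero]
        rcases k1 with k1 | k1
        · left
          have a1 := Ret.mem hβ0 _ _ _ k1 hy
          have a2 := Ret.step hβ0 k1 hy
          refine digit_eq a2 ?_
          simp only [mem_Ico] at a1 ⊢
          have f1 : β * t1 β α ≤ β * y := mul_le_mul_of_nonneg_left a1.1 hβ0.le
          have f2 : β * y < β * (t1 β α + dl β α) := mul_lt_mul_of_pos_left a1.2 hβ0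
          push_cast
          constructor <;> nlinarith
        · right
          have a1 := Ret.mem hβ0 _ _ _ k1 hy
          have a2 := Ret.step hβ0 k1 hy
          refine digit_eq a2 ?_
          simp only [mem_Ico] at a1 ⊢
          have f1 : β * (1 - (t1 β α + dl β α)) ≤ β * y := mul_le_mul_of_nonneg_left a1.1 hβ0.le
          have f2 : β * y < β * (1 - t1 β α) := mul_lt_mul_of_pos_left a1.2 hβ0
          rw [Nat.cast_sub (by omega)]
          push_cast
          constructor <;> nlinarith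
    · omega
  have hhead' : g'.1.getD 0 0 = 0 ∨ g'.1.getD 0 0 = m := by
    rcases hg' with ⟨h0, _⟩ | ⟨h0, _⟩ | ⟨h0, ⟨v, hv, _⟩ | ⟨v, hv, _⟩⟩
    · omega
    · omega
    · left; rw [hv]; rfl
    · right; rw [hv]; rfl
  omega

theorem Gd.digits_le {g : List ℕ × ℕ} (hg : Gd β α m g) : ∀ k ∈ g.1, k ≤ m := by
  rcases hg with ⟨hc, hg | hg | hg⟩ | ⟨hc, hg | hg⟩ | ⟨hc, ⟨v, hv, hg⟩ | ⟨v, hv, hg⟩⟩
  · exact Ret.digits_le _ _ hg
  · exact Ret.digits_le _ _ hg
  · exact Ret.digits_le _ _ hg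
  · exact Ret.digits_le _ _ hg
  · exact Ret.digits_le _ _ hg
  · rw [hv]
    intro k hk
    simp only [List.mem_cons] at hk
    rcases hk with rfl | rfl | hk
    · exact Nat.zero_le _
    · exact le_rfl
    · exact Ret.digits_le _ _ hg k hk
  · rw [hv]
    intro k hk
    simp only [List.mem_cons] at hk
    rcases hk with rfl | rfl | hk
    · exact le_rfl
    · exact Nat.zero_le _
    · exact Ret.digits_le _ _ hg k hk

theorem Gd.ne_nil {g : List ℕ × ℕ} (hg : Gd β α m g) : g.1 ≠ [] := by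
  rcases hg with ⟨hc, hg | hg | hg⟩ | ⟨hc, hg | hg⟩ | ⟨hc, ⟨v, hv, hg⟩ | ⟨v, hv, hg⟩⟩
  · exact hg.ne_nil
  · exact hg.ne_nil
  · exact hg.ne_nil
  · exact hg.ne_nil
  · exact hg.ne_nil
  · rw [hv]; simp
  · rw [hv]; simp

/-- Mirror of a label. -/
def mirG (m : ℕ) (g : List ℕ × ℕ) : List ℕ × ℕ := (g.1.map (mir m), g.2)

theorem mirG_mirG (m : ℕ) (g : List ℕ × ℕ) : mirG m (mirG m g) = g := by
  unfold mirG
  ext1
  · simp only [List.map_map]
    have e : mir m ∘ mir m = id := by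
      funext k
      exact mir_mir m k
    rw [e, List.map_id]
  · rfl

theorem Gd.mirror (h : Par β α m) {g : List ℕ × ℕ} (hg : Gd β α m g) :
    Gd β α m (mirG m g) := by
  have e3 := h.hm
  have z0 : mir m 0 = m := by rw [mir_of_le (Nat.zero_le _)]; simp
  have zm : mir m m = 0 := by rw [mir_of_le le_rfl]; simp
  rcases hg with ⟨hc, hg | hg | hg⟩ | ⟨hc, hg | hg⟩ | ⟨hc, ⟨v, hv, hg⟩ | ⟨v, hv, hg⟩⟩
  · refine Or.inl ⟨hc, Or.inr (Or.inr ?_)⟩
    have := Ret.mirror e3 _ _ _ hg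
    simpa [mirG] using this
  · refine Or.inl ⟨hc, Or.inr (Or.inl ?_)⟩
    have := Ret.mirror e3 _ _ _ hg
    rw [show (1 : ℝ) - (1 - (t1 β α + dl β α)) = t1 β α + dl β α by ring] at this
    exact this
  · refine Or.inl ⟨hc, Or.inl ?_⟩
    have := Ret.mirror e3 _ _ _ hg
    rw [sub_self, show (1 : ℝ) - (1 - t1 β α) = t1 β α by ring] at this
    exact this
  · refine Or.inr (Or.inl ⟨hc, Or.inr ?_⟩)
    exact Ret.mirror e3 _ _ _ hg
  · refine Or.inr (Or.inl ⟨hc, Or.inl ?_⟩)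
    have := Ret.mirror e3 _ _ _ hg
    rw [show (1 : ℝ) - (1 - (t1 β α + dl β α)) = t1 β α + dl β α by ring,
      show (1 : ℝ) - (1 - t1 β α) = t1 β α by ring] at this
    exact this
  · refine Or.inr (Or.inr ⟨hc, Or.inr ⟨v.map (mir m), ?_, ?_⟩⟩)
    · simp only [mirG, hv, List.map_cons, z0, zm]
    · have := Ret.mirror e3 _ _ _ hg
      rw [sub_self, show (1 : ℝ) - (1 - α) = α by ring] at this
      exact this
  · refine Or.inr (Or.inr ⟨hc, Or.inl ⟨v.map (mir m), ?_, ?_⟩⟩)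
    · simp only [mirG, hv, List.map_cons, z0, zm]
    · have := Ret.mirror e3 _ _ _ hg
      rw [sub_zero] at this
      exact this

theorem lab_spec {ω : ℝ × ℝ} (h : ∃ g, Gd β α m g ∧ ω ∈ rect β α g) :
    Gd β α m (lab β α m ω) ∧ ω ∈ rect β α (lab β α m ω) := by
  unfold lab
  rw [dif_pos h]
  exact Classical.choose_spec h

theorem zm_uniq {c c' : ℕ} {z : ℝ} (hc : c = 1 ∨ c = 2) (hc' : c' = 1 ∨ c' = 2)
    (hz : zm c z ∈ Ico (0 : ℝ) 1) (hz' : zm c' z ∈ Ico (0 : ℝ) 1) : c = c' := by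
  rcases hc with rfl | rfl <;> rcases hc' with rfl | rfl
  · rfl
  · simp only [zm, mem_Ico] at hz hz'
    norm_num at hz hz'
    linarith
  · simp only [zm, mem_Ico] at hz hz'
    norm_num at hz hz'
    linarith
  · rfl

theorem lab_eq (h : Par β α m) {g : List ℕ × ℕ} {ω : ℝ × ℝ} (hg : Gd β α m g)
    (hω : ω ∈ rect β α g) : lab β α m ω = g := by
  obtain ⟨h1, h2⟩ := lab_spec ⟨g, hg, hω⟩
  refine Gd.uniq h h1 hg h2.1 hω.1 ?_
  have a1 := (Gd.mem h h1 h2.1).2
  have a2 := (Gd.mem h hg hω.1).2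
  by_cases hc : g.2 = 0
  · rw [hc]
    exact a1.2 (a2.1 hc)
  · have hc' : (lab β α m ω).2 ≠ 0 := fun h0 => hc (a2.2 (a1.1 h0))
    refine zm_uniq ?_ ?_ h2.2 hω.2
    · rcases h1.two with h3 | h3 | h3
      · exact absurd h3 hc'
      · exact Or.inl h3
      · exact Or.inr h3
    · rcases hg.two with h3 | h3 | h3
      · exact absurd h3 hc
      · exact Or.inl h3
      · exact Or.inr h3

end system

end Pool.Agent.Helper46.Balanced
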