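import Mathlib
import Pool.Agent.Helper46.Balanced.System

set_option autoImplicit false

namespace Pool.Agent.Helper46.Balanced

open MeasureTheory Set Filter Topology

section measure

variable {β α : ℝ} {m : ℕ}

/-- The slope of the coin map. -/
noncomputable def sl (c : ℕ) : ℝ := if c = 0 then 1 else 2

theorem sl_pos (c : ℕ) : 0 < sl c := by unfold sl; split_ifs <;> norm_num

theorem zm_affine (c : ℕ) : ∃ d : ℝ, ∀ z, zm c z = sl c * z + d := by
  unfold zm sl
  by_cases h : c = 0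
  · exact ⟨0, fun z => by simp [h]⟩
  · exact ⟨-(c - 1), fun z => by simp only [h, if_false]; ring⟩

theorem map_affine {a : ℝ} (ha : 0 < a) (c : ℝ) :
    (volume.restrict {y : ℝ | a * y + c ∈ Ico (0 : ℝ) 1}).map (fun y => a * y + c) =
      ENNReal.ofReal a⁻¹ • volume.restrict (Ico (0 : ℝ) 1) := by
  have hm : Measurable (fun y : ℝ => a * y + c) := by fun_prop
  ext E hE
  rw [Measure.map_apply hm hE, Measure.restrict_apply (hm hE), Measure.smul_apply,
    Measure.restrict_apply hE, smul_eq_mul, ← vol_pre ha c]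
  rfl

instance : IsProbabilityMeasure (volume.restrict (Ico (0 : ℝ) 1)) :=
  ⟨by rw [Measure.restrict_apply MeasurableSet.univ, univ_inter, Real.volume_Ico]; simp⟩

instance : IsProbabilityMeasure mu := by unfold mu; infer_instance

theorem act_measurable (w : List ℕ) : Measurable (act β α w) := by
  obtain ⟨c, hc⟩ := act_affine (β := β) (α := α) w
  have : act β α w = fun y => β ^ w.length * y + c := funext hc
  rw [this]
  fun_prop

theorem zm_measurable (c : ℕ) : Measurable (zm c) := by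
  obtain ⟨d, hd⟩ := zm_affine c
  have : zm c = fun y => sl c * y + d := funext hd
  rw [this]
  fun_prop

/-- The affine map of a label. -/
noncomputable def gact (β α : ℝ) (g : List ℕ × ℕ) (ω : ℝ × ℝ) : ℝ × ℝ :=
  (act β α g.1 ω.1, zm g.2 ω.2)

theorem gact_measurable (g : List ℕ × ℕ) : Measurable (gact β α g) :=
  ((act_measurable g.1).comp measurable_fst).prodMk ((zm_measurable g.2).comp measurable_snd)

theorem rect_measurable (g : List ℕ × ℕ) : MeasurableSet (rect β α g) := by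
  have : rect β α g = gact β α g ⁻¹' (Ico (0 : ℝ) 1 ×ˢ Ico (0 : ℝ) 1) := rfl
  rw [this]
  exact gact_measurable g (measurableSet_Ico.prod measurableSet_Ico)

theorem zm_mem {g : List ℕ × ℕ} (hg : Gd β α m g) {z : ℝ} (hz : zm g.2 z ∈ Ico (0 : ℝ) 1) :
    z ∈ Ico (0 : ℝ) 1 := by
  rcases hg.two with h | h | h <;> rw [h] at hz <;> simp only [zm, mem_Ico] at hz ⊢ <;>
    norm_num at hz ⊢
  · exact hz
  · constructor <;> linarith
  · constructor <;> linarith

theorem map_rect (h : Par β α m) {g : List ℕ × ℕ} (hg : Gd β α m g) :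
    (mu.restrict (rect β α g)).map (gact β α g) =
      (ENNReal.ofReal (β ^ g.1.length)⁻¹ * ENNReal.ofReal (sl g.2)⁻¹) • mu := by
  have hβ0 : 0 < β := by linarith [h.hβ]
  obtain ⟨c, hc⟩ := act_affine (β := β) (α := α) g.1
  obtain ⟨d, hd⟩ := zm_affine g.2
  have hY : MeasurableSet {y : ℝ | act β α g.1 y ∈ Ico (0 : ℝ) 1} :=
    act_measurable g.1 measurableSet_Ico
  have hZ : MeasurableSet {z : ℝ | zm g.2 z ∈ Ico (0 : ℝ) 1} :=
    zm_measurable g.2 measurableSet_Ico
  have e1 : rect β α g = {y : ℝ | act β α g.1 y ∈ Ico (0 : ℝ) 1} ×ˢ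
      {z : ℝ | zm g.2 z ∈ Ico (0 : ℝ) 1} := rfl
  have e2 : (volume.restrict (Ico (0 : ℝ) 1)).restrict {y : ℝ | act β α g.1 y ∈ Ico (0 : ℝ) 1} =
      volume.restrict {y : ℝ | act β α g.1 y ∈ Ico (0 : ℝ) 1} := by
    have : {y : ℝ | act β α g.1 y ∈ Ico (0 : ℝ) 1} ∩ Ico (0 : ℝ) 1 =
        {y : ℝ | act β α g.1 y ∈ Ico (0 : ℝ) 1} := inter_eq_left.2 fun y hy => (hg.mem h hy).1
    rw [Measure.restrict_restrict hY, this]
  have e3 : (volume.restrict (Ico (0 : ℝ) 1)).restrict {z : ℝ | zm g.2 z ∈ Ico (0 : ℝ) 1} =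
      volume.restrict {z : ℝ | zm g.2 z ∈ Ico (0 : ℝ) 1} := by
    have : {z : ℝ | zm g.2 z ∈ Ico (0 : ℝ) 1} ∩ Ico (0 : ℝ) 1 =
        {z : ℝ | zm g.2 z ∈ Ico (0 : ℝ) 1} := inter_eq_left.2 fun z hz => zm_mem hg hz
    rw [Measure.restrict_restrict hZ, this]
  have e4 : gact β α g = Prod.map (act β α g.1) (zm g.2) := rfl
  have f1 : (volume.restrict {y : ℝ | act β α g.1 y ∈ Ico (0 : ℝ) 1}).map (act β α g.1) =
      ENNReal.ofReal (β ^ g.1.length)⁻¹ • volume.restrict (Ico (0 : ℝ) 1) := by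
    have := map_affine (a := β ^ g.1.length) (by positivity) c
    have h2 : act β α g.1 = fun y => β ^ g.1.length * y + c := funext hc
    rw [h2]
    exact this
  have f2 : (volume.restrict {z : ℝ | zm g.2 z ∈ Ico (0 : ℝ) 1}).map (zm g.2) =
      ENNReal.ofReal (sl g.2)⁻¹ • volume.restrict (Ico (0 : ℝ) 1) := by
    have := map_affine (a := sl g.2) (sl_pos _) d
    have h2 : zm g.2 = fun y => sl g.2 * y + d := funext hd
    rw [h2]
    exact this
  unfold mu
  rw [e1, ← Measure.prod_restrict, e2, e3, e4,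
    ← Measure.map_prod_map _ _ (act_measurable g.1) (zm_measurable g.2), f1, f2,
    Measure.prod_smul_left, Measure.prod_smul_right, smul_smul]

theorem mu_rect (h : Par β α m) {g : List ℕ × ℕ} (hg : Gd β α m g) :
    mu (rect β α g) = ENNReal.ofReal (β ^ g.1.length)⁻¹ * ENNReal.ofReal (sl g.2)⁻¹ := by
  have h1 := congrArg (fun ν : Measure (ℝ × ℝ) => ν univ) (map_rect h hg)
  simp only [Measure.smul_apply, measure_univ, smul_eq_mul, mul_one] at h1
  rw [Measure.map_apply (gact_measurable g) MeasurableSet.univ, preimage_univ,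
    Measure.restrict_apply MeasurableSet.univ, univ_inter] at h1
  exact h1

theorem vol_null_pre (hβ0 : 0 < β) (c : ℝ) {S : Set ℝ} (hS : volume S = 0) :
    volume ((fun y => β * y + c) ⁻¹' S) = 0 := by
  rw [vol_pre hβ0, hS, mul_zero]

theorem ae_cover (h : Par β α m) : ∀ᵐ ω ∂mu, ∃ g, Gd β α m g ∧ ω ∈ rect β α g := by
  have hβ0 : 0 < β := by linarith [h.hβ]
  have ht := h.t1_pos
  have hd := h.dl_pos
  have hh := h.lt_half
  have ha := h.hα
  have ha2 := h.hα2
  have e1 := h.mul_t1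
  have e2 := h.mul_dl
  have e3 := h.hm
  have hN : ∀ p : ℝ × ℝ, 0 ≤ p.1 → p.2 ≤ 1 →
      ∀ᵐ y : ℝ, y ∈ Ico p.1 p.2 → ∃ w, Ret β α m w p ∧ act β α w y ∈ Ico (0 : ℝ) 1 := by
    intro p h0 h1
    have := ae_ret h.hβ h.hα h.hm p h0 h1
    rw [ae_iff]
    convert this using 2
    ext y
    simp only [mem_ofPred_eq, Classical.not_imp, not_exists, not_and]
  have n1 := hN (0, t1 β α) le_rfl (by simp only; linarith)
  have n2 := hN (t1 β α + dl β α, 1 - (t1 β α + dl β α)) (by simp only; linarith)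
    (by simp only; linarith)
  have n3 := hN (1 - t1 β α, 1) (by simp only; linarith) le_rfl
  have n4 := hN (t1 β α, t1 β α + dl β α) (by simp only; linarith) (by simp only; linarith)
  have n5 := hN (1 - (t1 β α + dl β α), 1 - t1 β α) (by simp only; linarith)
    (by simp only; linarith)
  have n6 := hN (1 - α, 1) (by simp only; linarith) le_rfl
  have n7 := hN (0, α) le_rfl (by simp only; linarith)
  have pull : ∀ (c d : ℝ) (P : ℝ → Prop), (∀ᵐ y : ℝ, P y) →
      ∀ᵐ y : ℝ, P (β * (β * y + c) + d) := by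
    intro c d P hP
    rw [ae_iff] at hP ⊢
    have := vol_null_pre hβ0 c (vol_null_pre hβ0 d hP)
    exact this
  have n6' := pull (α - 0) (α - m) _ n6
  have n7' := pull (α - m) (α - 0) _ n7
  have hy : ∀ᵐ y : ℝ, y ∈ Ico (0 : ℝ) 1 →
      (∃ g, Gd β α m g ∧ g.2 = 0 ∧ act β α g.1 y ∈ Ico (0 : ℝ) 1) ∨
      ((∃ g, Gd β α m g ∧ g.2 = 1 ∧ act β α g.1 y ∈ Ico (0 : ℝ) 1) ∧
       (∃ g, Gd β α m g ∧ g.2 = 2 ∧ act β α g.1 y ∈ Ico (0 : ℝ) 1)) := by
    filter_upwards [n1, n2, n3, n4, n5, n6', n7'] with y k1 k2 k3 k4 k5 k6 k7 hy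
    simp only [mem_Ico] at hy
    have f1 : β * (β * t1 β α) = β - β * α := by rw [e1]; ring
    have f2 : β * (m : ℝ) = β * β + 2 * α * β - β := by
      have : (m : ℝ) = β + 2 * α - 1 := by linarith
      rw [this]; ring
    rcases lt_or_ge y (t1 β α) with c1 | c1
    · left
      obtain ⟨w, hw, hw2⟩ := k1 ⟨hy.1, c1⟩
      exact ⟨(w, 0), Or.inl ⟨rfl, Or.inl hw⟩, rfl, hw2⟩
    rcases lt_or_ge y (t1 β α + dl β α) with c2 | c2
    · right
      obtain ⟨w, hw, hw2⟩ := k4 ⟨c1, c2⟩
      refine ⟨⟨(w, 1), Or.inr (Or.inl ⟨rfl, Or.inl hw⟩), rfl, hw2⟩, ?_⟩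
      have c1' : β * (β * t1 β α) ≤ β * (β * y) :=
        mul_le_mul_of_nonneg_left (mul_le_mul_of_nonneg_left c1 hβ0.le) hβ0.le
      have c2' : β * (β * y) < β * (β * (t1 β α + dl β α)) :=
        mul_lt_mul_of_pos_left (mul_lt_mul_of_pos_left c2 hβ0) hβ0
      obtain ⟨v, hv, hv2⟩ := k6 (by
        simp only [mem_Ico]
        constructor <;> nlinarith)
      refine ⟨(0 :: m :: v, 2), Or.inr (Or.inr ⟨rfl, Or.inl ⟨v, rfl, hv⟩⟩), rfl, ?_⟩
      simp only [act]
      rw [Nat.cast_zero]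
      convert hv2 using 2
      ring
    rcases lt_or_ge y (1 - (t1 β α + dl β α)) with c3 | c3
    · left
      obtain ⟨w, hw, hw2⟩ := k2 ⟨c2, c3⟩
      exact ⟨(w, 0), Or.inl ⟨rfl, Or.inr (Or.inl hw)⟩, rfl, hw2⟩
    rcases lt_or_ge y (1 - t1 β α) with c4 | c4
    · right
      obtain ⟨w, hw, hw2⟩ := k5 ⟨c3, c4⟩
      refine ⟨⟨(w, 1), Or.inr (Or.inl ⟨rfl, Or.inr hw⟩), rfl, hw2⟩, ?_⟩
      have c1' : β * (β * (1 - (t1 β α + dl β α))) ≤ β * (β * y) :=
        mul_le_mul_of_nonneg_left (mul_le_mul_of_nonneg_left c3 hβ0.le) hβ0.le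
      have c2' : β * (β * y) < β * (β * (1 - t1 β α)) :=
        mul_lt_mul_of_pos_left (mul_lt_mul_of_pos_left c4 hβ0) hβ0
      obtain ⟨v, hv, hv2⟩ := k7 (by
        simp only [mem_Ico]
        constructor <;> nlinarith)
      refine ⟨(m :: 0 :: v, 2), Or.inr (Or.inr ⟨rfl, Or.inr ⟨v, rfl, hv⟩⟩), rfl, ?_⟩
      simp only [act]
      rw [Nat.cast_zero]
      convert hv2 using 2
      ring
    · left
      obtain ⟨w, hw, hw2⟩ := k3 ⟨c4, hy.2⟩
      exact ⟨(w, 0), Or.inl ⟨rfl, Or.inr (Or.inr hw)⟩, rfl, hw2⟩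
  have hy1 : ∀ᵐ y ∂(volume.restrict (Ico (0 : ℝ) 1)), y ∈ Ico (0 : ℝ) 1 :=
    ae_restrict_mem measurableSet_Ico
  have hy2 := (ae_restrict_of_ae (s := Ico (0 : ℝ) 1) hy)
  have g1 := (Measure.quasiMeasurePreserving_fst (μ := volume.restrict (Ico (0 : ℝ) 1))
    (ν := volume.restrict (Ico (0 : ℝ) 1))).ae (hy1.and hy2)
  have g2 := (Measure.quasiMeasurePreserving_snd (μ := volume.restrict (Ico (0 : ℝ) 1))
    (ν := volume.restrict (Ico (0 : ℝ) 1))).ae hy1
  unfold mu
  filter_upwards [g1, g2] with ω k1 k2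
  simp only [mem_Ico] at k2
  rcases k1.2 k1.1 with ⟨g, hg, hg0, hg1⟩ | ⟨⟨g, hg, hg0, hg1⟩, ⟨g', hg', hg0', hg1'⟩⟩
  · refine ⟨g, hg, hg1, ?_⟩
    simp [hg0, zm, k2]
  · rcases lt_or_ge ω.2 (1 / 2) with c | c
    · refine ⟨g, hg, hg1, ?_⟩
      simp only [hg0, zm, mem_Ico]
      norm_num
      constructor <;> linarith
    · refine ⟨g', hg', hg1', ?_⟩
      simp only [hg0', zm, mem_Ico]
      norm_num
      constructor <;> linarith

theorem lab_preimage (h : Par β α m) {g : List ℕ × ℕ} (hg : Gd β α m g) :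
    lab β α m ⁻¹' {g} = rect β α g := by
  ext ω
  constructor
  · intro hω
    have hω' : lab β α m ω = g := hω
    by_cases hex : ∃ g, Gd β α m g ∧ ω ∈ rect β α g
    · have := (lab_spec hex).2
      rwa [hω'] at this
    · exfalso
      unfold lab at hω'
      rw [dif_neg hex] at hω'
      apply hg.ne_nil
      rw [← hω']
  · intro hω
    exact lab_eq h hg hω

theorem lab_of_not {ω : ℝ × ℝ} (hex : ¬ ∃ g, Gd β α m g ∧ ω ∈ rect β α g) :
    lab β α m ω = ([], 0) := by
  unfold lab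
  rw [dif_neg hex]

theorem lab_pre_not {g : List ℕ × ℕ} (hg : ¬ Gd β α m g) (hg0 : g ≠ ([], 0)) :
    lab β α m ⁻¹' {g} = ∅ := by
  rw [eq_empty_iff_forall_notMem]
  intro ω hω
  have hω' : lab β α m ω = g := hω
  by_cases hex : ∃ g, Gd β α m g ∧ ω ∈ rect β α g
  · have := (lab_spec hex).1
    rw [hω'] at this
    exact hg this
  · rw [lab_of_not hex] at hω'
    exact hg0 hω'.symm

theorem lab_pre_nil (h : Par β α m) :
    lab β α m ⁻¹' {([], 0)} = (⋃ g ∈ {g | Gd β α m g}, rect β α g)ᶜ := by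
  ext ω
  constructor
  · intro hω hcon
    have hω' : lab β α m ω = ([], 0) := hω
    simp only [mem_iUnion, mem_ofPred_eq] at hcon
    obtain ⟨g, hg, hg2⟩ := hcon
    rw [lab_eq h hg hg2] at hω'
    apply hg.ne_nil
    rw [hω']
  · intro hω
    refine lab_of_not ?_
    rintro ⟨g, hg, hg2⟩
    apply hω
    simp only [mem_iUnion, mem_ofPred_eq]
    exact ⟨g, hg, hg2⟩

theorem lab_meas (h : Par β α m) (g : List ℕ × ℕ) : MeasurableSet (lab β α m ⁻¹' {g}) := by
  by_cases hg : Gd β α m g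
  · rw [lab_preimage h hg]
    exact rect_measurable g
  · by_cases hg0 : g = ([], 0)
    · rw [hg0, lab_pre_nil h]
      exact (MeasurableSet.biUnion (to_countable _) fun g _ => rect_measurable g).compl
    · rw [lab_pre_not hg hg0]
      exact MeasurableSet.empty

theorem mu_nil (h : Par β α m) : mu (lab β α m ⁻¹' {([], 0)}) = 0 := by
  rw [lab_pre_nil h]
  have := ae_cover h
  rw [ae_iff] at this
  convert this using 2
  ext ω
  simp only [mem_compl_iff, mem_iUnion, mem_ofPred_eq, exists_prop]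

theorem KK_meas (h : Par β α m) : Measurable (KK β α m) := by
  intro E hE
  have : KK β α m ⁻¹' E = ⋃ g : List ℕ × ℕ, (lab β α m ⁻¹' {g} ∩ gact β α g ⁻¹' E) := by
    ext ω
    simp only [mem_preimage, mem_iUnion, mem_inter_iff, mem_singleton_iff]
    constructor
    · intro hω
      exact ⟨lab β α m ω, rfl, hω⟩
    · rintro ⟨g, hg, hω⟩
      rw [← hg] at hω
      exact hω
  rw [this]
  exact MeasurableSet.iUnion fun g => (lab_meas h g).inter (gact_measurable g hE)

theorem branch (h : Par β α m) : Branch mu (lab β α m) (KK β α m) := by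
  refine ⟨lab_meas h, KK_meas h, ?_⟩
  intro g E hE
  have e1 : lab β α m ⁻¹' {g} ∩ KK β α m ⁻¹' E = lab β α m ⁻¹' {g} ∩ gact β α g ⁻¹' E := by
    ext ω
    simp only [mem_inter_iff, mem_preimage, mem_singleton_iff]
    constructor
    · rintro ⟨hω, h2⟩
      refine ⟨hω, ?_⟩
      rw [← hω]
      exact h2
    · rintro ⟨hω, h2⟩
      refine ⟨hω, ?_⟩
      rw [← hω] at h2
      exact h2
  rw [e1]
  by_cases hg : Gd β α m g
  · rw [lab_preimage h hg]
    have h1 := congrArg (fun ν : Measure (ℝ × ℝ) => ν E) (map_rect h hg)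
    simp only [Measure.smul_apply, smul_eq_mul] at h1
    rw [Measure.map_apply (gact_measurable g) hE,
      Measure.restrict_apply (gact_measurable g hE), inter_comm, ← mu_rect h hg] at h1
    exact h1
  · by_cases hg0 : g = ([], 0)
    · rw [hg0, mu_nil h, zero_mul]
      exact measure_mono_null inter_subset_left (mu_nil h)
    · rw [lab_pre_not hg hg0]
      simp

/-- The tail sets of all pieces. -/
noncomputable def tl (β α : ℝ) (m n : ℕ) : Set ℝ :=
  tail β α m n (0, t1 β α) ∪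
  (tail β α m n (t1 β α + dl β α, 1 - (t1 β α + dl β α)) ∪
  (tail β α m n (1 - t1 β α, 1) ∪
  (tail β α m n (t1 β α, t1 β α + dl β α) ∪
  (tail β α m n (1 - (t1 β α + dl β α), 1 - t1 β α) ∪
  ((fun y => β * y + (α - 0)) ⁻¹' ((fun y => β * y + (α - m)) ⁻¹' tail β α m n (1 - α, 1)) ∪
  ((fun y => β * y + (α - m)) ⁻¹' ((fun y => β * y + (α - 0)) ⁻¹' tail β α m n (0, α))))))))

theorem mem_tail (hβ0 : 0 < β) {w : List ℕ} {p : ℝ × ℝ} {y : ℝ} {n : ℕ} (hw : Ret β α m w p)
    (hy : act β α w y ∈ Ico (0 : ℝ) 1) (hn : n < w.length) : y ∈ tail β α m n p := by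
  refine ⟨Ret.mem hβ0 _ _ _ hw hy, fun w' hw' hy' => ?_⟩
  rw [← Ret.uniq hβ0 _ _ _ _ hw hw' hy hy']
  exact hn

theorem mem_tl (h : Par β α m) {g : List ℕ × ℕ} (hg : Gd β α m g) {y : ℝ}
    (hy : act β α g.1 y ∈ Ico (0 : ℝ) 1) {n : ℕ} (hn : n + 2 < g.1.length) :
    y ∈ tl β α m n := by
  have hβ0 : 0 < β := by linarith [h.hβ]
  have hn' : n < g.1.length := by omega
  unfold tl
  simp only [mem_union]
  rcases hg with ⟨hc, hg | hg | hg⟩ | ⟨hc, hg | hg⟩ | ⟨hc, ⟨v, hv, hg⟩ | ⟨v, hv, hg⟩⟩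
  · exact Or.inl (mem_tail hβ0 hg hy hn')
  · exact Or.inr (Or.inl (mem_tail hβ0 hg hy hn'))
  · exact Or.inr (Or.inr (Or.inl (mem_tail hβ0 hg hy hn')))
  · exact Or.inr (Or.inr (Or.inr (Or.inl (mem_tail hβ0 hg hy hn'))))
  · exact Or.inr (Or.inr (Or.inr (Or.inr (Or.inl (mem_tail hβ0 hg hy hn')))))
  · refine Or.inr (Or.inr (Or.inr (Or.inr (Or.inr (Or.inl ?_)))))
    rw [hv] at hy hn
    simp only [List.length_cons] at hn
    simp only [act, Nat.cast_zero] at hy
    refine mem_tail hβ0 hg ?_ (by omega)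
    convert hy using 2
    ring
  · refine Or.inr (Or.inr (Or.inr (Or.inr (Or.inr (Or.inr ?_)))))
    rw [hv] at hy hn
    simp only [List.length_cons] at hn
    simp only [act, Nat.cast_zero] at hy
    refine mem_tail hβ0 hg ?_ (by omega)
    convert hy using 2
    ring

theorem vol_pre_le (hβ : 2 < β) (c : ℝ) (S : Set ℝ) :
    volume ((fun y => β * y + c) ⁻¹' S) ≤ volume S := by
  rw [vol_pre (by linarith) c]
  calc ENNReal.ofReal β⁻¹ * volume S ≤ 1 * volume S := by
        apply mul_le_mul_left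
        rw [ENNReal.ofReal_le_one]
        apply inv_le_one_of_one_le₀
        linarith
    _ = volume S := one_mul _

theorem vol_tl (h : Par β α m) (n : ℕ) :
    volume (tl β α m n) ≤ 7 * ENNReal.ofReal ((2 / β) ^ n) := by
  have hβ := h.hβ
  have hβ0 : 0 < β := by linarith [h.hβ]
  have ht := h.t1_pos
  have hd := h.dl_pos
  have hh := h.lt_half
  have ha := h.hα
  have ha2 := h.hα2
  have n1 := tail_vol h.hβ h.hα h.hm n (0, t1 β α) le_rfl (by simp only; linarith)
  have n2 := tail_vol h.hβ h.hα h.hm n (t1 β α + dl β α, 1 - (t1 β α + dl β α))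
    (by simp only; linarith) (by simp only; linarith)
  have n3 := tail_vol h.hβ h.hα h.hm n (1 - t1 β α, 1) (by simp only; linarith) le_rfl
  have n4 := tail_vol h.hβ h.hα h.hm n (t1 β α, t1 β α + dl β α) (by simp only; linarith)
    (by simp only; linarith)
  have n5 := tail_vol h.hβ h.hα h.hm n (1 - (t1 β α + dl β α), 1 - t1 β α)
    (by simp only; linarith) (by simp only; linarith)
  have n6 := tail_vol h.hβ h.hα h.hm n (1 - α, 1) (by simp only; linarith) le_rfl
  have n7 := tail_vol h.hβ h.hα h.hm n (0, α) le_rfl (by simp only; linarith)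
  have n6' := (vol_pre_le hβ (α - 0) _).trans ((vol_pre_le hβ (α - m) _).trans n6)
  have n7' := (vol_pre_le hβ (α - m) _).trans ((vol_pre_le hβ (α - 0) _).trans n7)
  unfold tl
  have e : (7 : ENNReal) * ENNReal.ofReal ((2 / β) ^ n) =
      ENNReal.ofReal ((2 / β) ^ n) + (ENNReal.ofReal ((2 / β) ^ n) +
      (ENNReal.ofReal ((2 / β) ^ n) + (ENNReal.ofReal ((2 / β) ^ n) +
      (ENNReal.ofReal ((2 / β) ^ n) + (ENNReal.ofReal ((2 / β) ^ n) +
      ENNReal.ofReal ((2 / β) ^ n)))))) := by ring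
  rw [e]
  refine (measure_union_le _ _).trans (add_le_add n1 ?_)
  refine (measure_union_le _ _).trans (add_le_add n2 ?_)
  refine (measure_union_le _ _).trans (add_le_add n3 ?_)
  refine (measure_union_le _ _).trans (add_le_add n4 ?_)
  refine (measure_union_le _ _).trans (add_le_add n5 ?_)
  exact (measure_union_le _ _).trans (add_le_add n6' n7')

theorem mu_long (h : Par β α m) (n : ℕ) :
    mu {ω | n + 2 < (lab β α m ω).1.length} ≤ 7 * ENNReal.ofReal ((2 / β) ^ n) := by
  have hsub : {ω : ℝ × ℝ | n + 2 < (lab β α m ω).1.length} ⊆ tl β α m n ×ˢ univ := by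
    intro ω hω
    have hω' : n + 2 < (lab β α m ω).1.length := hω
    by_cases hex : ∃ g, Gd β α m g ∧ ω ∈ rect β α g
    · obtain ⟨h1, h2⟩ := lab_spec hex
      exact ⟨mem_tl h h1 h2.1 hω', mem_univ _⟩
    · rw [lab_of_not hex] at hω'
      simp at hω'
  refine (measure_mono hsub).trans ?_
  unfold mu
  rw [Measure.prod_prod, measure_univ, mul_one]
  exact (Measure.restrict_apply_le _ _).trans (vol_tl h n)

theorem measurable_of_lab (h : Par β α m) {X : Type*} [MeasurableSpace X]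
    (f : List ℕ × ℕ → X) : Measurable (fun ω => f (lab β α m ω)) := (branch h).meas f

theorem nat_le_tsum (L : ℕ) :
    (L : ENNReal) ≤ 2 + ∑' n : ℕ, (if n + 2 < L then 1 else 0 : ENNReal) := by
  have h1 : ∑ n ∈ Finset.range (L - 2), (if n + 2 < L then 1 else 0 : ENNReal) ≤
      ∑' n : ℕ, (if n + 2 < L then 1 else 0 : ENNReal) := ENNReal.sum_le_tsum _
  have h2 : ∑ n ∈ Finset.range (L - 2), (if n + 2 < L then 1 else 0 : ENNReal) =
      ((L - 2 : ℕ) : ENNReal) := by
    rw [Finset.sum_congr rfl (g := fun _ => (1 : ENNReal))]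
    · simp
    · intro n hn
      have := Finset.mem_range.1 hn
      rw [if_pos (by omega)]
  rw [h2] at h1
  calc (L : ENNReal) ≤ ((2 + (L - 2) : ℕ) : ENNReal) := by
        exact_mod_cast (by omega : L ≤ 2 + (L - 2))
    _ = 2 + ((L - 2 : ℕ) : ENNReal) := by push_cast; rfl
    _ ≤ _ := by gcongr

theorem lint_length (h : Par β α m) :
    ∫⁻ ω, ((lab β α m ω).1.length : ENNReal) ∂mu < ⊤ := by
  have hβ := h.hβ
  have hms : ∀ n : ℕ, MeasurableSet {ω | n + 2 < (lab β α m ω).1.length} := by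
    intro n
    exact (branch h).measSet {g | n + 2 < g.1.length}
  have hmf : ∀ n : ℕ, Measurable (fun ω => (if n + 2 < (lab β α m ω).1.length
      then 1 else 0 : ENNReal)) := fun n =>
    measurable_of_lab h (fun g => (if n + 2 < g.1.length then 1 else 0 : ENNReal))
  calc ∫⁻ ω, ((lab β α m ω).1.length : ENNReal) ∂mu
      ≤ ∫⁻ ω, (2 + ∑' n : ℕ, (if n + 2 < (lab β α m ω).1.length then 1 else 0 : ENNReal))
          ∂mu := lintegral_mono fun ω => nat_le_tsum _
    _ = 2 + ∑' n : ℕ, mu {ω | n + 2 < (lab β α m ω).1.length} := by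
        rw [lintegral_add_left measurable_const, lintegral_const, measure_univ, mul_one,
          lintegral_tsum fun n => (hmf n).aemeasurable]
        congr 1
        refine tsum_congr fun n => ?_
        have : (fun ω => (if n + 2 < (lab β α m ω).1.length then 1 else 0 : ENNReal)) =
            {ω | n + 2 < (lab β α m ω).1.length}.indicator (fun _ => 1) := by
          funext ω
          by_cases hc : n + 2 < (lab β α m ω).1.length
          · rw [if_pos hc, indicator_of_mem]
            exact hc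
          · rw [if_neg hc, indicator_of_notMem]
            exact hc
        rw [this, lintegral_indicator (hms n)]
        simp
    _ ≤ 2 + ∑' n : ℕ, 7 * ENNReal.ofReal ((2 / β) ^ n) := by
        gcongr with n
        exact mu_long h n
    _ < ⊤ := by
        rw [ENNReal.tsum_mul_left]
        have hs : Summable (fun n : ℕ => (2 / β) ^ n) := by
          refine summable_geometric_of_lt_one (by positivity) ?_
          rw [div_lt_one (by linarith)]
          exact hβ
        rw [← ENNReal.ofReal_tsum_of_nonneg (fun n => by positivity) hs]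
        refine ENNReal.add_lt_top.2 ⟨by simp, ENNReal.mul_lt_top (by simp) ENNReal.ofReal_lt_top⟩

theorem integrable_of_le (h : Par β α m) (f : List ℕ × ℕ → ℝ)
    (hf : ∀ g, |f g| ≤ g.1.length + 1) : Integrable (fun ω => f (lab β α m ω)) mu := by
  refine ⟨(measurable_of_lab h f).aestronglyMeasurable, ?_⟩
  unfold HasFiniteIntegral
  calc ∫⁻ ω, ‖f (lab β α m ω)‖ₑ ∂mu ≤ ∫⁻ ω, (((lab β α m ω).1.length : ENNReal) + 1) ∂mu := by
        apply lintegral_mono
        intro ω
        simp only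
        rw [Real.enorm_eq_ofReal_abs]
        calc ENNReal.ofReal |f (lab β α m ω)| ≤
            ENNReal.ofReal ((lab β α m ω).1.length + 1) := ENNReal.ofReal_le_ofReal (hf _)
          _ = ((lab β α m ω).1.length : ENNReal) + 1 := by
              rw [ENNReal.ofReal_add (by positivity) (by norm_num), ENNReal.ofReal_natCast,
                ENNReal.ofReal_one]
    _ = (∫⁻ ω, ((lab β α m ω).1.length : ENNReal) ∂mu) + 1 := by
        rw [lintegral_add_right _ measurable_const, lintegral_const, measure_univ, mul_one]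
    _ < ⊤ := ENNReal.add_lt_top.2 ⟨lint_length h, by simp⟩

theorem mu_mirror (h : Par β α m) (g : List ℕ × ℕ) :
    mu (lab β α m ⁻¹' {mirG m g}) = mu (lab β α m ⁻¹' {g}) := by
  by_cases hg : Gd β α m g
  · rw [lab_preimage h hg, lab_preimage h (hg.mirror h), mu_rect h hg, mu_rect h (hg.mirror h)]
    simp [mirG]
  · have hg' : ¬ Gd β α m (mirG m g) := by
      intro hcon
      apply hg
      rw [← mirG_mirG m g]
      exact hcon.mirror h
    have key : ∀ g', ¬ Gd β α m g' → mu (lab β α m ⁻¹' {g'}) = 0 := by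
      intro g' hg'
      by_cases hg0 : g' = ([], 0)
      · rw [hg0, mu_nil h]
      · rw [lab_pre_not hg' hg0]
        simp
    rw [key _ hg, key _ hg']

theorem integral_mirror (h : Par β α m) (f : List ℕ × ℕ → ℝ) :
    ∫ ω, f (mirG m (lab β α m ω)) ∂mu = ∫ ω, f (lab β α m ω) ∂mu := by
  let _ : MeasurableSpace (List ℕ × ℕ) := ⊤
  have hl : Measurable (lab β α m) := measurable_of_lab h id
  have hmir : Measurable (mirG m) := fun _ _ => trivial
  have e : (mu.map (lab β α m)).map (mirG m) = mu.map (lab β α m) := by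
    apply Measure.ext_of_singleton
    intro g
    rw [Measure.map_apply hmir trivial, Measure.map_apply hl trivial,
      Measure.map_apply hl trivial, ← mu_mirror h g]
    congr 1
    ext ω
    simp only [mem_preimage, mem_singleton_iff]
    constructor
    · intro h1
      rw [← h1, mirG_mirG]
    · intro h1
      rw [h1, mirG_mirG]
  have hf : Measurable f := fun _ _ => trivial
  have e1 : ∫ ω, f (lab β α m ω) ∂mu = ∫ g, f g ∂(mu.map (lab β α m)) :=
    (integral_map hl.aemeasurable hf.aestronglyMeasurable).symm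
  have e2 : ∫ ω, f (mirG m (lab β α m ω)) ∂mu = ∫ g, f g ∂((mu.map (lab β α m)).map (mirG m)) := by
    rw [integral_map hmir.aemeasurable hf.aestronglyMeasurable]
    exact (integral_map hl.aemeasurable (hf.comp hmir).aestronglyMeasurable).symm
  rw [e1, e2, e]

theorem count_mirror (h : Par β α m) {k : ℕ} (hk : k ≤ m) :
    ∫ ω, ((lab β α m ω).1.count (m - k) : ℝ) ∂mu = ∫ ω, ((lab β α m ω).1.count k : ℝ) ∂mu := by
  rw [← integral_mirror h (fun g => (g.1.count (m - k) : ℝ))]
  congr 1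
  funext ω
  have hinj : Function.Injective (mir m) :=
    Function.LeftInverse.injective (g := mir m) (mir_mir m)
  have : m - k = mir m k := (mir_of_le hk).symm
  simp only [mirG]
  rw [this, List.count_map_of_injective _ _ hinj]

theorem length_pos (h : Par β α m) : 0 < ∫ ω, ((lab β α m ω).1.length : ℝ) ∂mu := by
  have hint := integrable_of_le h (fun g => (g.1.length : ℝ)) (fun g => by
    rw [abs_of_nonneg (by positivity)]; linarith)
  have h1 : (1 : ℝ) ≤ ∫ ω, ((lab β α m ω).1.length : ℝ) ∂mu := by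
    have h2 : ∫ _ω : ℝ × ℝ, (1 : ℝ) ∂mu ≤ ∫ ω, ((lab β α m ω).1.length : ℝ) ∂mu := by
      refine integral_mono_ae (integrable_const _) hint ?_
      filter_upwards [ae_cover h] with ω hω
      have := (lab_spec hω).1.ne_nil
      have h3 := List.length_pos_iff.2 this
      exact_mod_cast h3
    simpa using h2
  linarith

theorem coin_pos (h : Par β α m) :
    0 < ∫ ω, (if (lab β α m ω).2 = 0 then 0 else 1 : ℝ) ∂mu := by
  have hβ0 : 0 < β := by linarith [h.hβ]
  have ht := h.t1_pos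
  have hd := h.dl_pos
  have hh := h.lt_half
  have hint := integrable_of_le h (fun g => (if g.2 = 0 then 0 else 1 : ℝ)) (fun g => by
    split_ifs
    · rw [abs_zero]; positivity
    · rw [abs_one]; simp)
  rw [integral_pos_iff_support_of_nonneg (fun ω => by simp only; split_ifs <;> norm_num) hint]
  have hsub : (Ico (t1 β α) (t1 β α + dl β α) ×ˢ (univ : Set ℝ)) ≤ᵐ[mu]
      Function.support (fun ω => (if (lab β α m ω).2 = 0 then 0 else 1 : ℝ)) := by
    filter_upwards [ae_cover h] with ω hω hω2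
    obtain ⟨h1, h2⟩ := lab_spec hω
    have h3 := (h1.mem h h2.1).2
    have h4 : InCoin β α ω.1 := Or.inl hω2.1
    have h5 : (lab β α m ω).2 ≠ 0 := fun h0 => (h3.1 h0) h4
    show (if (lab β α m ω).2 = 0 then 0 else 1 : ℝ) ≠ 0
    rw [if_neg h5]
    norm_num
  refine lt_of_lt_of_le ?_ (measure_mono_ae hsub)
  unfold mu
  rw [Measure.prod_prod, measure_univ, mul_one, Measure.restrict_apply measurableSet_Ico,
    inter_eq_left.2, Real.volume_Ico]
  · rw [ENNReal.ofReal_pos]
    linarith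
  · intro y hy
    simp only [mem_Ico] at hy ⊢
    constructor <;> linarith

end measure

end Pool.Agent.Helper46.Balanced
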