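import Mathlib

set_option autoImplicit false

namespace Pool.Agent.Helper46.Balanced

open MeasureTheory Set Filter Topology

/-- Concatenation of the first `n` words. -/
def cat (W : ℕ → List ℕ) : ℕ → List ℕ
  | 0 => []
  | n + 1 => cat W n ++ W n

/-- The digit sequence obtained by concatenating all words. -/
def dig (W : ℕ → List ℕ) (j : ℕ) : ℕ := (cat W (j + 1)).getD j 0

theorem cat_succ' (W : ℕ → List ℕ) (n : ℕ) :
    cat W (n + 1) = W 0 ++ cat (fun i => W (i + 1)) n := by
  induction n with
  | zero => simp [cat]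
  | succ n ih =>
    rw [cat, ih, cat, List.append_assoc]

theorem cat_add (W : ℕ → List ℕ) (n d : ℕ) : cat W n <+: cat W (n + d) := by
  induction d with
  | zero => exact List.prefix_refl _
  | succ d ih =>
    rw [← add_assoc, cat]
    exact ih.trans (List.prefix_append _ _)

theorem cat_mono (W : ℕ → List ℕ) {n k : ℕ} (h : n ≤ k) : cat W n <+: cat W k := by
  obtain ⟨d, rfl⟩ := Nat.exists_eq_add_of_le h
  exact cat_add W n d

theorem length_cat (W : ℕ → List ℕ) (n : ℕ) :
    (cat W n).length = ∑ i ∈ Finset.range n, (W i).length := by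
  induction n with
  | zero => simp [cat]
  | succ n ih => rw [cat, List.length_append, ih, Finset.sum_range_succ]

theorem count_cat (W : ℕ → List ℕ) (k n : ℕ) :
    (cat W n).count k = ∑ i ∈ Finset.range n, (W i).count k := by
  induction n with
  | zero => simp [cat]
  | succ n ih => rw [cat, List.count_append, ih, Finset.sum_range_succ]

theorem le_length_cat {W : ℕ → List ℕ} (hW : ∀ i, W i ≠ []) (n : ℕ) :
    n ≤ (cat W n).length := by
  rw [length_cat]
  calc n = ∑ _i ∈ Finset.range n, 1 := by simp
    _ ≤ _ := Finset.sum_le_sum fun i _ => List.length_pos_iff.2 (hW i)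

theorem getD_of_isPrefix {l l' : List ℕ} (h : l <+: l') {j : ℕ} (hj : j < l.length) :
    l'.getD j 0 = l.getD j 0 := by
  obtain ⟨t, rfl⟩ := h
  rw [List.getD_append _ _ _ _ hj]

theorem dig_eq {W : ℕ → List ℕ} (hW : ∀ i, W i ≠ []) {n j : ℕ} (hj : j < (cat W n).length) :
    dig W j = (cat W n).getD j 0 := by
  have h1 : j < (cat W (j + 1)).length := lt_of_lt_of_le (Nat.lt_succ_self j)
    (le_length_cat hW (j + 1))
  rcases le_total (j + 1) n with h | h
  · exact (getD_of_isPrefix (cat_mono W h) h1).symm
  · exact getD_of_isPrefix (cat_mono W h) hj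

theorem dig_head {W : ℕ → List ℕ} (hW : ∀ i, W i ≠ []) {j : ℕ} (hj : j < (W 0).length) :
    dig W j = (W 0).getD j 0 := by
  have : cat W 1 = W 0 := by simp [cat]
  rw [dig_eq hW (n := 1) (by rw [this]; exact hj), this]

theorem dig_shift {W : ℕ → List ℕ} (hW : ∀ i, W i ≠ []) (j : ℕ) :
    dig W ((W 0).length + j) = dig (fun i => W (i + 1)) j := by
  have h1 : j < (cat (fun i => W (i + 1)) (j + 1)).length :=
    lt_of_lt_of_le (Nat.lt_succ_self j) (le_length_cat (fun i => hW (i + 1)) (j + 1))
  rw [dig_eq hW (n := j + 1 + 1) (by rw [cat_succ', List.length_append]; omega), cat_succ',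
    List.getD_append_right _ _ _ _ (Nat.le_add_right _ _), Nat.add_sub_cancel_left]
  rfl

theorem filter_getD (l : List ℕ) (k : ℕ) :
    ((Finset.range l.length).filter (fun i => l.getD i 0 = k)).card = l.count k := by
  induction l with
  | nil => simp
  | cons a l ih =>
    rw [List.length_cons, Finset.range_add_one', Finset.filter_insert, Finset.filter_map,
      List.count_cons]
    have e : ((fun i => (a :: l).getD i 0 = k) ∘
        ((⟨fun i => i + 1, add_left_injective 1⟩ : ℕ ↪ ℕ) : ℕ → ℕ)) =
        fun i => l.getD i 0 = k := by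
      funext i
      simp
    simp only [List.getD_cons_zero]
    rw [← ih]
    by_cases h : a = k
    · rw [if_pos h, Finset.card_insert_of_notMem, Finset.card_map]
      · simp only [h, beq_self_eq_true, if_true]
        rfl
      · simp
    · rw [if_neg h, Finset.card_map]
      simp only [beq_iff_eq, h, if_false, add_zero]
      rfl

theorem count_dig {W : ℕ → List ℕ} (hW : ∀ i, W i ≠ []) (k n : ℕ) :
    ((Finset.range (cat W n).length).filter (fun i => dig W i = k)).card =
      ∑ i ∈ Finset.range n, (W i).count k := by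
  rw [← count_cat, ← filter_getD]
  congr 1
  apply Finset.filter_congr
  intro i hi
  rw [dig_eq hW (Finset.mem_range.1 hi)]

/-- A monotone count along a sequence of times determines the limiting proportion. -/
theorem freq_of_times {L C : ℕ → ℕ} {l c : ℝ} (hl : 0 < l) (hL : ∀ n, n ≤ L n) (hL0 : L 0 = 0)
    (hC : Monotone C)
    (h1 : Tendsto (fun n : ℕ => (L n : ℝ) / n) atTop (𝓝 l))
    (h2 : Tendsto (fun n : ℕ => (C (L n) : ℝ) / n) atTop (𝓝 c)) :
    Tendsto (fun n : ℕ => (C n : ℝ) / n) atTop (𝓝 (c / l)) := by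
  classical
  -- the last time before `N`
  let v : ℕ → ℕ := fun N => Nat.findGreatest (fun n => L n ≤ N) N
  have hv1 : ∀ N, L (v N) ≤ N := fun N =>
    Nat.findGreatest_spec (P := fun n => L n ≤ N) (Nat.zero_le N) (by simp [hL0])
  have hv2 : ∀ N, N < L (v N + 1) := by
    intro N
    by_contra hcon
    push Not at hcon
    have h3 : v N + 1 ≤ N := (hL _).trans hcon
    have h4 := Nat.le_findGreatest (P := fun n => L n ≤ N) h3 hcon
    have h5 : v N + 1 ≤ v N := h4
    omega
  have hv3 : Tendsto v atTop atTop := by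
    rw [tendsto_atTop_atTop]
    intro b
    refine ⟨max b (L b), fun N hN => ?_⟩
    exact Nat.le_findGreatest ((le_max_left _ _).trans hN) ((le_max_right _ _).trans hN)
  have hLr : Tendsto (fun n : ℕ => (L (n + 1) : ℝ) / n) atTop (𝓝 l) := by
    have e1 := h1.comp (tendsto_add_atTop_nat 1)
    have e2 : Tendsto (fun n : ℕ => ((n : ℝ) + 1) / n) atTop (𝓝 1) := by
      have := tendsto_one_div_atTop_nhds_zero_nat (𝕜 := ℝ)
      have h3 := this.const_add 1
      rw [add_zero] at h3
      refine h3.congr' ?_
      filter_upwards [eventually_gt_atTop 0] with n hn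
      have : (n : ℝ) ≠ 0 := by positivity
      field_simp
    have e3 := e1.mul e2
    rw [mul_one] at e3
    refine e3.congr' ?_
    filter_upwards [eventually_gt_atTop 0] with n hn
    have : (n : ℝ) ≠ 0 := by positivity
    have h4 : (n : ℝ) + 1 ≠ 0 := by positivity
    simp only [Function.comp_apply, Nat.cast_add, Nat.cast_one]
    field_simp
  have hCr : Tendsto (fun n : ℕ => (C (L (n + 1)) : ℝ) / n) atTop (𝓝 c) := by
    have e1 := h2.comp (tendsto_add_atTop_nat 1)
    have e2 : Tendsto (fun n : ℕ => ((n : ℝ) + 1) / n) atTop (𝓝 1) := by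
      have := tendsto_one_div_atTop_nhds_zero_nat (𝕜 := ℝ)
      have h3 := this.const_add 1
      rw [add_zero] at h3
      refine h3.congr' ?_
      filter_upwards [eventually_gt_atTop 0] with n hn
      have : (n : ℝ) ≠ 0 := by positivity
      field_simp
    have e3 := e1.mul e2
    rw [mul_one] at e3
    refine e3.congr' ?_
    filter_upwards [eventually_gt_atTop 0] with n hn
    have : (n : ℝ) ≠ 0 := by positivity
    have h4 : (n : ℝ) + 1 ≠ 0 := by positivity
    simp only [Function.comp_apply, Nat.cast_add, Nat.cast_one]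
    field_simp
  -- lower and upper bounds
  have hlow : Tendsto (fun N : ℕ => (C (L (v N)) : ℝ) / v N / ((L (v N + 1) : ℝ) / v N)) atTop
      (𝓝 (c / l)) := (h2.div hLr hl.ne').comp hv3
  have hupp : Tendsto (fun N : ℕ => (C (L (v N + 1)) : ℝ) / v N / ((L (v N) : ℝ) / v N)) atTop
      (𝓝 (c / l)) := (hCr.div h1 hl.ne').comp hv3
  refine tendsto_of_tendsto_of_tendsto_of_le_of_le' hlow hupp ?_ ?_
  · filter_upwards [hv3.eventually (eventually_gt_atTop 0), eventually_gt_atTop 0] with N hN hN0
    have a1 : (0 : ℝ) < v N := by exact_mod_cast hN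
    have a2 : (0 : ℝ) < N := by exact_mod_cast hN0
    have a3 : (0 : ℝ) < L (v N + 1) := by
      have := hv2 N
      exact_mod_cast (Nat.zero_le N).trans_lt this
    rw [div_div_div_cancel_right₀ a1.ne', div_le_div_iff₀ a3 a2]
    have b1 : (C (L (v N)) : ℝ) ≤ C N := by exact_mod_cast hC (hv1 N)
    have b2 : (N : ℝ) ≤ L (v N + 1) := by exact_mod_cast (hv2 N).le
    have b3 : (0 : ℝ) ≤ C (L (v N)) := Nat.cast_nonneg _
    nlinarith
  · filter_upwards [hv3.eventually (eventually_gt_atTop 0), eventually_gt_atTop 0] with N hN hN0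
    have a1 : (0 : ℝ) < v N := by exact_mod_cast hN
    have a2 : (0 : ℝ) < N := by exact_mod_cast hN0
    have a3 : (0 : ℝ) < L (v N) := by
      have := hL (v N)
      exact_mod_cast lt_of_lt_of_le hN this
    rw [div_div_div_cancel_right₀ a1.ne', div_le_div_iff₀ a2 a3]
    have b1 : (C N : ℝ) ≤ C (L (v N + 1)) := by exact_mod_cast hC (hv2 N).le
    have b2 : (L (v N) : ℝ) ≤ N := by exact_mod_cast hv1 N
    have b3 : (0 : ℝ) ≤ C N := Nat.cast_nonneg _
    nlinarith

/-- The value of a finite word in base `β`. -/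
noncomputable def val (β : ℝ) : List ℕ → ℝ
  | [] => 0
  | k :: w => (k + val β w) / β

theorem sum_getD (β : ℝ) (l : List ℕ) :
    ∑ i ∈ Finset.range l.length, (l.getD i 0 : ℝ) / β ^ (i + 1) = val β l := by
  induction l with
  | nil => simp [val]
  | cons a l ih =>
    rw [List.length_cons, Finset.sum_range_succ', val, ← ih, add_div, Finset.sum_div, add_comm]
    congr 1
    · simp
    · apply Finset.sum_congr rfl
      intro i _
      rw [List.getD_cons_succ, pow_succ β (i + 1)]
      rw [div_div]

theorem val_append {β : ℝ} (hβ : 0 < β) (l l' : List ℕ) :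
    val β (l ++ l') = val β l + val β l' / β ^ l.length := by
  induction l with
  | nil => simp [val]
  | cons a l ih =>
    rw [List.cons_append, val, ih, val, List.length_cons, pow_succ]
    field_simp
    ring

end Pool.Agent.Helper46.Balanced
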