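import Mathlib
import Pool.Agent.Helper46.Balanced.Defs
import Pool.Agent.Helper46.Balanced.Seqs
import Pool.Agent.Helper46.Balanced.Measure

set_option autoImplicit false

namespace Pool.Agent.Helper46.Balanced

open MeasureTheory Set Filter Topology

section final

variable {β α : ℝ} {m : ℕ}

/-- The points whose orbit behaves well. -/
structure Good (β α : ℝ) (m : ℕ) (ω : ℝ × ℝ) : Prop where
  cov : ∀ i : ℕ, ∃ g, Gd β α m g ∧ (KK β α m)^[i] ω ∈ rect β α g
  cnt : ∀ k : ℕ, Tendsto (fun n : ℕ => (∑ i ∈ Finset.range n,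
    ((lab β α m ((KK β α m)^[i] ω)).1.count k : ℝ)) / n) atTop
      (𝓝 (∫ ω, ((lab β α m ω).1.count k : ℝ) ∂mu))
  len : Tendsto (fun n : ℕ => (∑ i ∈ Finset.range n,
    ((lab β α m ((KK β α m)^[i] ω)).1.length : ℝ)) / n) atTop
      (𝓝 (∫ ω, ((lab β α m ω).1.length : ℝ) ∂mu))
  coin : Tendsto (fun n : ℕ => (∑ i ∈ Finset.range n,
    (if (lab β α m ((KK β α m)^[i] ω)).2 = 0 then 0 else 1 : ℝ)) / n) atTop
      (𝓝 (∫ ω, (if (lab β α m ω).2 = 0 then 0 else 1 : ℝ) ∂mu))

theorem ae_good (h : Par β α m) : ∀ᵐ ω ∂mu, Good β α m ω := by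
  have hB := branch h
  have h1 : ∀ᵐ ω ∂mu, ∀ i : ℕ, ∃ g, Gd β α m g ∧ (KK β α m)^[i] ω ∈ rect β α g := by
    rw [ae_all_iff]
    intro i
    exact (hB.mp.iterate i).quasiMeasurePreserving.ae (ae_cover h)
  have h2 : ∀ᵐ ω ∂mu, ∀ k : ℕ, Tendsto (fun n : ℕ => (∑ i ∈ Finset.range n,
      ((lab β α m ((KK β α m)^[i] ω)).1.count k : ℝ)) / n) atTop
      (𝓝 (∫ ω, ((lab β α m ω).1.count k : ℝ) ∂mu)) := by
    rw [ae_all_iff]
    intro k
    have hi := integrable_of_le h (fun g => (g.1.count k : ℝ)) fun g => by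
      rw [abs_of_nonneg (by positivity)]
      have : (g.1.count k : ℝ) ≤ g.1.length := by exact_mod_cast List.count_le_length
      linarith
    exact hB.slln (fun g => (g.1.count k : ℝ)) hi
  have i3 := integrable_of_le h (fun g => (g.1.length : ℝ)) fun g => by
    rw [abs_of_nonneg (by positivity)]; linarith
  have h3 := hB.slln (fun g => (g.1.length : ℝ)) i3
  have i4 := integrable_of_le h (fun g => (if g.2 = 0 then 0 else 1 : ℝ)) fun g => by
    split_ifs
    · rw [abs_zero]; positivity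
    · rw [abs_one]; simp
  have h4 := hB.slln (fun g => (if g.2 = 0 then 0 else 1 : ℝ)) i4
  filter_upwards [h1, h2, h3, h4] with ω k1 k2 k3 k4
  exact ⟨k1, k2, k3, k4⟩

/-- The words read along the orbit. -/
noncomputable def wd (β α : ℝ) (m : ℕ) (ω : ℝ × ℝ) (i : ℕ) : List ℕ :=
  (lab β α m ((KK β α m)^[i] ω)).1

theorem Good.wd_ne {ω : ℝ × ℝ} (hω : Good β α m ω) (i : ℕ) : wd β α m ω i ≠ [] :=
  (lab_spec (hω.cov i)).1.ne_nil

theorem wd_shift (ω : ℝ × ℝ) : (fun i => wd β α m ω (i + 1)) = wd β α m (KK β α m ω) := by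
  funext i
  unfold wd
  rw [Function.iterate_succ_apply]

theorem Good.balanced (h : Par β α m) {ω : ℝ × ℝ} (hω : Good β α m ω) :
    IsBalanced m (dig (wd β α m ω)) := by
  have key : ∀ k : ℕ, HasFreq (dig (wd β α m ω)) k
      ((∫ ω, ((lab β α m ω).1.count k : ℝ) ∂mu) / ∫ ω, ((lab β α m ω).1.length : ℝ) ∂mu) := by
    intro k
    refine freq_of_times (L := fun n => (cat (wd β α m ω) n).length)
      (C := fun N => ((Finset.range N).filter (fun i => dig (wd β α m ω) i = k)).card)
      (length_pos h) (fun n => le_length_cat hω.wd_ne n) (by simp [cat]) ?_ ?_ ?_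
    · intro a b hab
      apply Finset.card_le_card
      apply Finset.filter_subset_filter
      exact Finset.range_mono hab
    · refine hω.len.congr fun n => ?_
      rw [length_cat]
      push_cast
      rfl
    · refine (hω.cnt k).congr fun n => ?_
      rw [count_dig hω.wd_ne]
      push_cast
      rfl
  intro k hk
  refine ⟨_, key k, ?_⟩
  have := key (m - k)
  rwa [count_mirror h hk] at this

theorem Good.digit_le {ω : ℝ × ℝ} (hω : Good β α m ω) (j : ℕ) : dig (wd β α m ω) j ≤ m := by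
  have hj : j < (cat (wd β α m ω) (j + 1)).length :=
    lt_of_lt_of_le (Nat.lt_succ_self j) (le_length_cat hω.wd_ne (j + 1))
  have hall : ∀ n, ∀ k ∈ cat (wd β α m ω) n, k ≤ m := by
    intro n
    induction n with
    | zero => intro k hk; simp [cat] at hk
    | succ n ih =>
      intro k hk
      rw [cat, List.mem_append] at hk
      rcases hk with hk | hk
      · exact ih k hk
      · exact (lab_spec (hω.cov n)).1.digits_le k hk
  unfold dig
  rw [List.getD_eq_getElem _ _ hj]
  exact hall _ _ (List.getElem_mem hj)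

theorem act_val (h : Par β α m) (w : List ℕ) : ∀ y : ℝ,
    y + α / (β - 1) = val β w + (act β α w y + α / (β - 1)) / β ^ w.length := by
  have hβ := h.hβ
  have hβ0 : 0 < β := by linarith
  have hβ1 : β - 1 ≠ 0 := by
    have : 0 < β - 1 := by linarith
    exact this.ne'
  induction w with
  | nil => intro y; simp [val, act]
  | cons k w ih =>
    intro y
    have e := ih (β * y + α - k)
    rw [val, act, List.length_cons, pow_succ]
    have e2 : y + α / (β - 1) = (k + (β * y + α - k + α / (β - 1))) / β := by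
      field_simp
      ring
    rw [e2, e]
    field_simp
    ring

theorem orbit_val (h : Par β α m) (ω : ℝ × ℝ) (n : ℕ) :
    ω.1 + α / (β - 1) = val β (cat (wd β α m ω) n) +
      (((KK β α m)^[n] ω).1 + α / (β - 1)) / β ^ (cat (wd β α m ω) n).length := by
  have hβ := h.hβ
  have hβ0 : 0 < β := by linarith
  induction n with
  | zero => simp [cat, val]
  | succ n ih =>
    rw [cat, val_append hβ0, List.length_append, pow_add, Function.iterate_succ_apply']
    have e := act_val h (wd β α m ω n) ((KK β α m)^[n] ω).1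
    have e2 : (KK β α m ((KK β α m)^[n] ω)).1 = act β α (wd β α m ω n) ((KK β α m)^[n] ω).1 := rfl
    rw [e2]
    calc ω.1 + α / (β - 1) = val β (cat (wd β α m ω) n) +
      (((KK β α m)^[n] ω).1 + α / (β - 1)) / β ^ (cat (wd β α m ω) n).length := ih
      _ = _ := by
        rw [e, add_div, add_assoc]
        congr 2
        rw [div_div, mul_comm]

theorem Good.orbit_mem (h : Par β α m) {ω : ℝ × ℝ} (hω : Good β α m ω) (n : ℕ) :
    ((KK β α m)^[n] ω).1 ∈ Ico (0 : ℝ) 1 := by
  have h1 := lab_spec (hω.cov n)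
  exact (h1.1.mem h h1.2.1).1

theorem Good.hasSum (h : Par β α m) {ω : ℝ × ℝ} (hω : Good β α m ω) :
    HasSum (fun i => (dig (wd β α m ω) i : ℝ) / β ^ (i + 1)) (ω.1 + α / (β - 1)) := by
  have hβ := h.hβ
  have hβ0 : 0 < β := by linarith
  have hα := h.hα
  have hc0 : 0 < α / (β - 1) := div_pos hα (by linarith)
  rw [hasSum_iff_tendsto_nat_of_nonneg fun i => by positivity]
  have hmono : Monotone fun n : ℕ =>
      ∑ i ∈ Finset.range n, (dig (wd β α m ω) i : ℝ) / β ^ (i + 1) := by
    intro a b hab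
    exact Finset.sum_le_sum_of_subset_of_nonneg (Finset.range_mono hab)
      fun i _ _ => by positivity
  have hL : Tendsto (fun n : ℕ => (cat (wd β α m ω) n).length) atTop atTop :=
    tendsto_atTop_mono (fun n => le_length_cat hω.wd_ne n) tendsto_id
  rw [tendsto_iff_tendsto_subseq_of_monotone hmono hL]
  have e : ((fun n : ℕ => ∑ i ∈ Finset.range n, (dig (wd β α m ω) i : ℝ) / β ^ (i + 1)) ∘
      fun n : ℕ => (cat (wd β α m ω) n).length) = fun n => ω.1 + α / (β - 1) -
      (((KK β α m)^[n] ω).1 + α / (β - 1)) / β ^ (cat (wd β α m ω) n).length := by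
    funext n
    simp only [Function.comp_apply]
    have h1 := orbit_val h ω n
    have h2 : ∑ i ∈ Finset.range (cat (wd β α m ω) n).length,
        (dig (wd β α m ω) i : ℝ) / β ^ (i + 1) = val β (cat (wd β α m ω) n) := by
      rw [← sum_getD]
      apply Finset.sum_congr rfl
      intro i hi
      rw [dig_eq hω.wd_ne (Finset.mem_range.1 hi)]
    rw [h2]
    linarith
  rw [e]
  have hz : Tendsto (fun n : ℕ => (((KK β α m)^[n] ω).1 + α / (β - 1)) /
      β ^ (cat (wd β α m ω) n).length) atTop (𝓝 0) := by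
    have h1 : Tendsto (fun n : ℕ => (1 + α / (β - 1)) *
        (β⁻¹) ^ (cat (wd β α m ω) n).length) atTop (𝓝 0) := by
      have h2 : Tendsto (fun n : ℕ => (β⁻¹) ^ n) atTop (𝓝 0) :=
        tendsto_pow_atTop_nhds_zero_of_lt_one (by positivity)
          (inv_lt_one_of_one_lt₀ (by linarith))
      have h3 := (h2.comp hL).const_mul (1 + α / (β - 1))
      rw [mul_zero] at h3
      exact h3
    refine squeeze_zero (fun n => ?_) (fun n => ?_) h1
    · have := (hω.orbit_mem h n).1
      positivity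
    · have := (hω.orbit_mem h n).2
      rw [inv_pow, ← div_eq_mul_inv]
      apply div_le_div_of_nonneg_right _ (by positivity)
      linarith
  have := hz.const_sub (ω.1 + α / (β - 1))
  rwa [sub_zero] at this

theorem KK_good {ω : ℝ × ℝ} (hc : ∀ i : ℕ, ∃ g, Gd β α m g ∧ (KK β α m)^[i] ω ∈ rect β α g) :
    ∀ i : ℕ, ∃ g, Gd β α m g ∧ (KK β α m)^[i] (KK β α m ω) ∈ rect β α g := by
  intro i
  have := hc (i + 1)
  rwa [Function.iterate_succ_apply] at this

/-- Two points over the same base point with the same digits have the same labels. -/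
theorem same_lab (h : Par β α m) {ω ω' : ℝ × ℝ}
    (hc : ∀ i : ℕ, ∃ g, Gd β α m g ∧ (KK β α m)^[i] ω ∈ rect β α g)
    (hc' : ∀ i : ℕ, ∃ g, Gd β α m g ∧ (KK β α m)^[i] ω' ∈ rect β α g)
    (h1 : ω.1 = ω'.1) (hd : dig (wd β α m ω) = dig (wd β α m ω')) :
    lab β α m ω = lab β α m ω' ∧ (KK β α m ω).1 = (KK β α m ω').1 ∧
      dig (wd β α m (KK β α m ω)) = dig (wd β α m (KK β α m ω')) := by
  have hne : ∀ i, wd β α m ω i ≠ [] := fun i => (lab_spec (hc i)).1.ne_nil
  have hne' : ∀ i, wd β α m ω' i ≠ [] := fun i => (lab_spec (hc' i)).1.ne_nil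
  have a := lab_spec (hc 0)
  have a' := lab_spec (hc' 0)
  simp only [Function.iterate_zero, id_eq] at a a'
  have b' : act β α (lab β α m ω').1 ω.1 ∈ Ico (0 : ℝ) 1 := by rw [h1]; exact a'.2.1
  have hhead : (lab β α m ω).1.getD 0 0 = (lab β α m ω').1.getD 0 0 := by
    have e1 := dig_head hne (j := 0) (List.length_pos_iff.2 (hne 0))
    have e2 := dig_head hne' (j := 0) (List.length_pos_iff.2 (hne' 0))
    rw [hd, e2] at e1
    exact e1.symm
  have hlab : lab β α m ω = lab β α m ω' := by
    refine Gd.uniq h a.1 a'.1 a.2.1 b' ?_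
    have c1 := (a.1.mem h a.2.1).2
    have c2 := (a'.1.mem h b').2
    rcases a.1.two with d | d | d <;> rcases a'.1.two with d' | d' | d'
    · rw [d, d']
    · have := c2.2 (c1.1 d); omega
    · have := c2.2 (c1.1 d); omega
    · have := c1.2 (c2.1 d'); omega
    · rw [d, d']
    · exact absurd hhead (Gd.head h a.1 a'.1 a.2.1 d d')
    · have := c1.2 (c2.1 d'); omega
    · exact absurd hhead.symm (Gd.head h a'.1 a.1 b' d' d)
    · rw [d, d']
  refine ⟨hlab, ?_, ?_⟩
  · show act β α (lab β α m ω).1 ω.1 = act β α (lab β α m ω').1 ω'.1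
    rw [hlab, h1]
  · funext j
    rw [← wd_shift, ← wd_shift, ← dig_shift hne, ← dig_shift hne', hd]
    have : (wd β α m ω 0).length = (wd β α m ω' 0).length := by
      show (lab β α m ω).1.length = (lab β α m ω').1.length
      rw [hlab]
    rw [this]

theorem same_all (h : Par β α m) {ω ω' : ℝ × ℝ}
    (hc : ∀ i : ℕ, ∃ g, Gd β α m g ∧ (KK β α m)^[i] ω ∈ rect β α g)
    (hc' : ∀ i : ℕ, ∃ g, Gd β α m g ∧ (KK β α m)^[i] ω' ∈ rect β α g)
    (h1 : ω.1 = ω'.1) (hd : dig (wd β α m ω) = dig (wd β α m ω')) (n : ℕ) :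
    lab β α m ((KK β α m)^[n] ω) = lab β α m ((KK β α m)^[n] ω') := by
  induction n generalizing ω ω' with
  | zero => exact (same_lab h hc hc' h1 hd).1
  | succ n ih =>
    rw [Function.iterate_succ_apply, Function.iterate_succ_apply]
    have := same_lab h hc hc' h1 hd
    exact ih (KK_good hc) (KK_good hc') this.2.1 this.2.2

theorem zm_sub (c : ℕ) (z z' : ℝ) : zm c z - zm c z' = sl c * (z - z') := by
  obtain ⟨d, hd⟩ := zm_affine c
  rw [hd, hd]
  ring

theorem Good.inj (h : Par β α m) {y z z' : ℝ} (hω : Good β α m (y, z))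
    (hω' : Good β α m (y, z')) (hd : dig (wd β α m (y, z)) = dig (wd β α m (y, z'))) :
    z = z' := by
  have hs := same_all h hω.cov hω'.cov rfl hd
  have hprod : ∀ n : ℕ, ((KK β α m)^[n] (y, z)).2 - ((KK β α m)^[n] (y, z')).2 =
      2 ^ (∑ i ∈ Finset.range n, if (lab β α m ((KK β α m)^[i] (y, z))).2 = 0 then 0 else 1) *
        (z - z') := by
    intro n
    induction n with
    | zero => simp
    | succ n ih =>
      rw [Function.iterate_succ_apply', Function.iterate_succ_apply']
      have e1 : (KK β α m ((KK β α m)^[n] (y, z))).2 =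
          zm (lab β α m ((KK β α m)^[n] (y, z))).2 ((KK β α m)^[n] (y, z)).2 := rfl
      have e2 : (KK β α m ((KK β α m)^[n] (y, z'))).2 =
          zm (lab β α m ((KK β α m)^[n] (y, z'))).2 ((KK β α m)^[n] (y, z')).2 := rfl
      rw [e1, e2, ← hs n, zm_sub, ih, Finset.sum_range_succ, pow_add]
      unfold sl
      split_ifs
      · ring
      · ring
  have hbd : ∀ n : ℕ, |((KK β α m)^[n] (y, z)).2 - ((KK β α m)^[n] (y, z')).2| ≤ 1 := by
    intro n
    have a := lab_spec (hω.cov n)
    have a' := lab_spec (hω'.cov n)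
    have b := zm_mem a.1 a.2.2
    have b' := zm_mem a'.1 a'.2.2
    simp only [mem_Ico] at b b'
    rw [abs_le]
    constructor <;> linarith
  by_contra hne
  have hpos : 0 < |z - z'| := abs_pos.2 (sub_ne_zero.2 hne)
  have hNat : Tendsto (fun n : ℕ => ∑ i ∈ Finset.range n,
      if (lab β α m ((KK β α m)^[i] (y, z))).2 = 0 then 0 else 1) atTop atTop := by
    have hcoin := hω.coin
    have hp := coin_pos h
    have h1 : Tendsto (fun n : ℕ => (∑ i ∈ Finset.range n,
        (if (lab β α m ((KK β α m)^[i] (y, z))).2 = 0 then 0 else 1 : ℝ)) / n * n) atTop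
        atTop := hcoin.pos_mul_atTop hp tendsto_natCast_atTop_atTop
    have h2 : Tendsto (fun n : ℕ => (∑ i ∈ Finset.range n,
        (if (lab β α m ((KK β α m)^[i] (y, z))).2 = 0 then 0 else 1 : ℝ))) atTop atTop := by
      refine h1.congr' ?_
      filter_upwards [eventually_gt_atTop 0] with n hn
      have : (n : ℝ) ≠ 0 := by positivity
      field_simp
    rw [← tendsto_natCast_atTop_iff (R := ℝ)]
    refine h2.congr fun n => ?_
    push_cast
    rfl
  have hbig := (tendsto_pow_atTop_atTop_of_one_lt (one_lt_two : (1 : ℝ) < 2)).comp hNat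
  have hbig2 := hbig.atTop_mul_const hpos
  obtain ⟨n, hn⟩ := (hbig2.eventually (eventually_gt_atTop 1)).exists
  have h3 := hbd n
  rw [hprod n, abs_mul, abs_pow, abs_two] at h3
  simp only [Function.comp_apply] at hn
  linarith

end final

end Pool.Agent.Helper46.Balanced
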