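import Mathlib
import Pool.Agent.Helper46.Balanced.Final

set_option autoImplicit false

namespace Pool.Agent.Helper46.Balanced

open MeasureTheory Set Filter Topology

/-- At least continuum many balanced expansions. -/
def Rich (β : ℝ) (x : ℝ) : Prop :=
  ∃ f : (ℕ → Bool) → (ℕ → ℕ), Function.Injective f ∧
    ∀ b, IsExpansion β (f b) x ∧ IsBalanced ⌊β⌋₊ (f b)

theorem card_conull {S : Set ℝ} (hS : ∀ᵐ z ∂(volume.restrict (Ico (0 : ℝ) 1)), z ∈ S) :
    ∃ f : (ℕ → Bool) → ℝ, Function.Injective f ∧ ∀ b, f b ∈ S := by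
  have hN : volume {z : ℝ | ¬ (z ∈ Ico (0 : ℝ) 1 → z ∈ S)} = 0 := by
    rw [ae_restrict_iff' measurableSet_Ico] at hS
    exact hS
  obtain ⟨U, hU1, hU2, hU3⟩ := Set.exists_isOpen_lt_of_lt
    {z : ℝ | ¬ (z ∈ Ico (0 : ℝ) 1 → z ∈ S)} (1 / 4 : ENNReal) (by
      rw [hN]; exact ENNReal.div_pos one_ne_zero (by norm_num))
  have hF : IsClosed (Icc (0 : ℝ) (1 / 2) \ U) := isClosed_Icc.sdiff hU2
  have hsub : Icc (0 : ℝ) (1 / 2) \ U ⊆ S := by
    rintro z ⟨⟨hz1, hz2⟩, hz3⟩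
    by_contra hcon
    apply hz3
    apply hU1
    intro h
    exact hcon (h ⟨hz1, by linarith⟩)
  have hnc : ¬ (Icc (0 : ℝ) (1 / 2) \ U).Countable := by
    intro hc
    have h0 := hc.measure_zero volume
    have h1 : volume (Icc (0 : ℝ) (1 / 2)) ≤ volume (Icc (0 : ℝ) (1 / 2) \ U) + volume U := by
      refine (measure_mono ?_).trans (measure_union_le _ _)
      intro z hz
      by_cases hzU : z ∈ U
      · exact Or.inr hzU
      · exact Or.inl ⟨hz, hzU⟩
    rw [h0, zero_add, Real.volume_Icc] at h1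
    have h2 := lt_of_le_of_lt h1 hU3
    rw [show (1 / 4 : ENNReal) = ENNReal.ofReal (1 / 4) by
      rw [ENNReal.ofReal_div_of_pos (by norm_num)]; norm_num] at h2
    rw [ENNReal.ofReal_lt_ofReal_iff (by norm_num)] at h2
    norm_num at h2
  obtain ⟨f, hf1, _, hf3⟩ := IsClosed.exists_nat_bool_injection_of_not_countable hF hnc
  exact ⟨f, hf3, fun b => hsub (hf1 (mem_range_self b))⟩

section extend

variable {β α : ℝ} {m : ℕ}

theorem ae_rich (h : Par β α m) (hfl : ⌊β⌋₊ = m) :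
    ∀ᵐ y ∂(volume.restrict (Ico (0 : ℝ) 1)), Rich β (y + α / (β - 1)) := by
  have h1 : ∀ᵐ y ∂(volume.restrict (Ico (0 : ℝ) 1)),
      ∀ᵐ z ∂(volume.restrict (Ico (0 : ℝ) 1)), Good β α m (y, z) := by
    have := ae_good h
    unfold mu at this
    exact Measure.ae_ae_of_ae_prod this
  filter_upwards [h1] with y hy
  obtain ⟨f, hf1, hf2⟩ := card_conull (S := {z | Good β α m (y, z)}) hy
  refine ⟨fun b => dig (wd β α m (y, f b)), ?_, ?_⟩
  · intro b b' hb
    exact hf1 (Good.inj h (hf2 b) (hf2 b') hb)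
  · intro b
    have hg : Good β α m (y, f b) := hf2 b
    refine ⟨⟨fun i => ?_, hg.hasSum h⟩, ?_⟩
    · rw [hfl]; exact hg.digit_le i
    · rw [hfl]; exact hg.balanced h

/-- Prepend a zero digit. -/
def pre (ε : ℕ → ℕ) : ℕ → ℕ
  | 0 => 0
  | i + 1 => ε i

theorem pre_inj : Function.Injective pre := by
  intro ε ε' h
  funext i
  exact congrFun h (i + 1)

theorem HasFreq.pre {ε : ℕ → ℕ} {k : ℕ} {p : ℝ} (h : HasFreq ε k p) : HasFreq (pre ε) k p := by
  unfold HasFreq at h ⊢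
  rw [← tendsto_add_atTop_iff_nat 1]
  have hcount : ∀ n : ℕ, ((Finset.range (n + 1)).filter
      (fun i => Balanced.pre ε i = k)).card = (if k = 0 then 1 else 0) +
        ((Finset.range n).filter (fun i => ε i = k)).card := by
    intro n
    rw [Finset.range_add_one', Finset.filter_insert, Finset.filter_map]
    have e : ((fun i => Balanced.pre ε i = k) ∘
        ((⟨fun i => i + 1, add_left_injective 1⟩ : ℕ ↪ ℕ) : ℕ → ℕ)) =
        fun i => ε i = k := by
      funext i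
      rfl
    by_cases hk : k = 0
    · have h0 : Balanced.pre ε 0 = k := hk.symm
      rw [if_pos h0, if_pos hk, Finset.card_insert_of_notMem (by simp), Finset.card_map,
        add_comm]
      rfl
    · have h0 : ¬ Balanced.pre ε 0 = k := fun h => hk h.symm
      rw [if_neg h0, if_neg hk, Finset.card_map, zero_add]
      rfl
  have e1 : Tendsto (fun n : ℕ => (n : ℝ) / (n + 1)) atTop (𝓝 1) := tendsto_natCast_div_add_atTop 1
  have e2 : Tendsto (fun n : ℕ => (if k = 0 then 1 else 0 : ℝ) * (1 / ((n : ℝ) + 1))) atTop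
      (𝓝 0) := by
    have := (tendsto_one_div_add_atTop_nhds_zero_nat (𝕜 := ℝ)).const_mul
      (if k = 0 then 1 else 0 : ℝ)
    rwa [mul_zero] at this
  have e3 := e2.add (h.mul e1)
  rw [zero_add, mul_one] at e3
  refine e3.congr' ?_
  filter_upwards [eventually_gt_atTop 0] with n hn
  rw [hcount n]
  have h1 : (n : ℝ) ≠ 0 := by positivity
  have h2 : (n : ℝ) + 1 ≠ 0 := by positivity
  push_cast
  by_cases hk : k = 0
  · rw [if_pos hk]
    field_simp
  · rw [if_neg hk, zero_mul, zero_add, zero_add, div_mul_div_cancel₀ h1]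

theorem Rich.div {x : ℝ} (h : Rich β x) : Rich β (x / β) := by
  obtain ⟨f, hf1, hf2⟩ := h
  refine ⟨fun b => pre (f b), pre_inj.comp hf1, fun b => ?_⟩
  obtain ⟨⟨h1, h2⟩, h3⟩ := hf2 b
  refine ⟨⟨?_, ?_⟩, ?_⟩
  · intro i
    cases i with
    | zero => exact Nat.zero_le _
    | succ i => exact h1 i
  · rw [← hasSum_nat_add_iff' 1]
    have h4 := h2.div_const β
    simp only [Finset.range_one, Finset.sum_singleton, pre, Nat.cast_zero, zero_div, sub_zero]
    have e : (fun i => (f b i : ℝ) / β ^ (i + 1) / β) =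
        fun i => (f b i : ℝ) / β ^ (i + 1 + 1) := by
      funext i
      rw [div_div, ← pow_succ]
    rw [e] at h4
    exact h4
  · intro k hk
    obtain ⟨p, hp1, hp2⟩ := h3 k hk
    exact ⟨p, hp1.pre, hp2.pre⟩

theorem Rich.mirror (hβ1 : 1 < β) {x : ℝ} (h : Rich β x) :
    Rich β ((⌊β⌋₊ : ℝ) / (β - 1) - x) := by
  have hβ0 : 0 < β := by linarith
  obtain ⟨f, hf1, hf2⟩ := h
  refine ⟨fun b i => ⌊β⌋₊ - f b i, ?_, fun b => ?_⟩
  · intro b b' hb
    apply hf1
    funext i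
    have h1 := congrFun hb i
    simp only at h1
    have h2 := (hf2 b).1.1 i
    have h3 := (hf2 b').1.1 i
    omega
  · obtain ⟨⟨h1, h2⟩, h3⟩ := hf2 b
    refine ⟨⟨fun i => Nat.sub_le _ _, ?_⟩, ?_⟩
    · have hg : HasSum (fun i : ℕ => (⌊β⌋₊ : ℝ) / β ^ (i + 1)) ((⌊β⌋₊ : ℝ) / (β - 1)) := by
        have h5 := hasSum_geometric_of_lt_one (r := β⁻¹) (by positivity)
          (inv_lt_one_of_one_lt₀ hβ1)
        have h6 := h5.mul_left ((⌊β⌋₊ : ℝ) * β⁻¹)
        have hne : β - 1 ≠ 0 := by linarith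
        have e : (⌊β⌋₊ : ℝ) * β⁻¹ * (1 - β⁻¹)⁻¹ = (⌊β⌋₊ : ℝ) / (β - 1) := by
          have : 1 - β⁻¹ ≠ 0 := by
            have := inv_lt_one_of_one_lt₀ hβ1
            linarith
          field_simp
        rw [e] at h6
        have e2 : (fun i : ℕ => (⌊β⌋₊ : ℝ) * β⁻¹ * β⁻¹ ^ i) =
            fun i : ℕ => (⌊β⌋₊ : ℝ) / β ^ (i + 1) := by
          funext i
          rw [pow_succ, inv_pow]
          field_simp
        rw [e2] at h6
        exact h6
      have h7 := hg.sub h2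
      have e3 : (fun i : ℕ => (⌊β⌋₊ : ℝ) / β ^ (i + 1) - (f b i : ℝ) / β ^ (i + 1)) =
          fun i : ℕ => ((⌊β⌋₊ - f b i : ℕ) : ℝ) / β ^ (i + 1) := by
        funext i
        rw [Nat.cast_sub (h1 i), sub_div]
      rw [e3] at h7
      exact h7
    · have hfr : ∀ k ≤ ⌊β⌋₊, ∀ p : ℝ, HasFreq (f b) k p →
          HasFreq (fun i => ⌊β⌋₊ - f b i) (⌊β⌋₊ - k) p := by
        intro k hk p hp
        unfold HasFreq at hp ⊢
        refine hp.congr fun n => ?_
        congr 3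
        apply Finset.filter_congr
        intro i _
        have := h1 i
        show f b i = k ↔ ⌊β⌋₊ - f b i = ⌊β⌋₊ - k
        omega
      intro k hk
      obtain ⟨p, hp1, hp2⟩ := h3 k hk
      refine ⟨p, ?_, hfr k hk p hp1⟩
      have := hfr (⌊β⌋₊ - k) (Nat.sub_le _ _) p hp2
      rwa [Nat.sub_sub_self hk] at this

theorem Rich.pow (hβ0 : 0 < β) {x : ℝ} (n : ℕ) (h : Rich β (β ^ n * x)) : Rich β x := by
  induction n with
  | zero => simpa using h
  | succ n ih =>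
    apply ih
    have := h.div
    convert this using 1
    rw [pow_succ]
    field_simp

theorem ae_rich_low (h : Par β α m) (hfl : ⌊β⌋₊ = m) :
    ∀ᵐ x : ℝ, x ∈ Ioo (0 : ℝ) (α / (β - 1) + 1) → Rich β x := by
  have hβ := h.hβ
  have hβ0 : 0 < β := by linarith
  have hα := h.hα
  have hβ1 : 0 < β - 1 := by linarith
  have hc0 : 0 < α / (β - 1) := div_pos hα hβ1
  have h1 : ∀ᵐ y : ℝ, y ∈ Ico (0 : ℝ) 1 → Rich β (y + α / (β - 1)) := by
    have := ae_rich h hfl
    rwa [ae_restrict_iff' measurableSet_Ico] at this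
  have h2 : ∀ᵐ x : ℝ, x - α / (β - 1) ∈ Ico (0 : ℝ) 1 → Rich β x := by
    have := (measurePreserving_sub_right volume (α / (β - 1))).quasiMeasurePreserving.ae h1
    filter_upwards [this] with x hx hx2
    have := hx hx2
    rwa [sub_add_cancel] at this
  have h3 : ∀ᵐ x : ℝ, ∀ n : ℕ, β ^ n * x - α / (β - 1) ∈ Ico (0 : ℝ) 1 →
      Rich β (β ^ n * x) := by
    rw [ae_all_iff]
    intro n
    rw [ae_iff] at h2 ⊢
    have hp : 0 < β ^ n := by positivity
    have := vol_pre hp 0 {x : ℝ | ¬ (x - α / (β - 1) ∈ Ico (0 : ℝ) 1 → Rich β x)}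
    rw [h2, mul_zero] at this
    simp only [add_zero] at this
    exact this
  filter_upwards [h3] with x hx hx2
  obtain ⟨hx3, hx4⟩ := hx2
  rcases le_or_gt (α / (β - 1)) x with hc | hc
  · have := hx 0 (by simp only [pow_zero, one_mul, mem_Ico]; constructor <;> linarith)
    simpa using this
  · -- find the power
    have hex : ∃ n : ℕ, α / (β - 1) ≤ β ^ n * x := by
      have ht := (tendsto_pow_atTop_atTop_of_one_lt (show 1 < β by linarith)).atTop_mul_const hx3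
      exact (ht.eventually (eventually_ge_atTop (α / (β - 1)))).exists
    classical
    obtain ⟨n, hn1, hn2⟩ : ∃ n : ℕ, α / (β - 1) ≤ β ^ n * x ∧
        ∀ k < n, ¬ α / (β - 1) ≤ β ^ k * x :=
      ⟨Nat.find hex, Nat.find_spec hex, fun k hk => Nat.find_min hex hk⟩
    cases n with
    | zero =>
      rw [pow_zero, one_mul] at hn1
      linarith
    | succ n =>
      have hn3 := hn2 n (Nat.lt_succ_self n)
      push Not at hn3
      have e1 : β * (α / (β - 1)) = α / (β - 1) + α := by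
        field_simp
        ring
      refine Rich.pow hβ0 (n + 1) (hx (n + 1) ?_)
      simp only [mem_Ico]
      have e2 : β ^ (n + 1) * x = β * (β ^ n * x) := by rw [pow_succ]; ring
      rw [e2] at hn1 ⊢
      have e3 : β * (β ^ n * x) < β * (α / (β - 1)) := mul_lt_mul_of_pos_left hn3 hβ0
      have := h.hα2
      constructor <;> linarith

theorem ae_rich_all (hβ : 2 < β) (hni : ∀ n : ℕ, β ≠ n) :
    ∀ᵐ x ∂(volume.restrict (Icc (0 : ℝ) ((⌊β⌋₊ : ℝ) / (β - 1)))), Rich β x := by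
  have hβ0 : 0 < β := by linarith
  have hβ1 : 0 < β - 1 := by linarith
  have f1 : (⌊β⌋₊ : ℝ) < β := lt_of_le_of_ne (Nat.floor_le hβ0.le) (fun h => hni _ h.symm)
  have f2 : β < (⌊β⌋₊ : ℝ) + 1 := Nat.lt_floor_add_one β
  have h : Par β (((⌊β⌋₊ : ℝ) + 1 - β) / 2) ⌊β⌋₊ :=
    ⟨hβ, by linarith, by linarith, by ring⟩
  have h1 := ae_rich_low h rfl
  have h2 : ∀ᵐ x : ℝ, (⌊β⌋₊ : ℝ) / (β - 1) - x ∈
      Ioo (0 : ℝ) (((⌊β⌋₊ : ℝ) + 1 - β) / 2 / (β - 1) + 1) →
      Rich β ((⌊β⌋₊ : ℝ) / (β - 1) - x) :=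
    (Measure.measurePreserving_sub_left volume ((⌊β⌋₊ : ℝ) / (β - 1))).quasiMeasurePreserving.ae h1
  have h3 : ∀ᵐ x : ℝ, x ≠ 0 := by
    rw [ae_iff]
    simp
  have h4 : ∀ᵐ x : ℝ, x ≠ (⌊β⌋₊ : ℝ) / (β - 1) := by
    rw [ae_iff]
    simp
  rw [ae_restrict_iff' measurableSet_Icc]
  filter_upwards [h1, h2, h3, h4] with x k1 k2 k3 k4 hx
  have g1 : 0 < x := lt_of_le_of_ne hx.1 (Ne.symm k3)
  have g2 : x < (⌊β⌋₊ : ℝ) / (β - 1) := lt_of_le_of_ne hx.2 k4
  have e : (⌊β⌋₊ : ℝ) / (β - 1) = 2 * (((⌊β⌋₊ : ℝ) + 1 - β) / 2 / (β - 1)) + 1 := by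
    field_simp
    ring
  have hc0 : 0 < ((⌊β⌋₊ : ℝ) + 1 - β) / 2 / (β - 1) := div_pos h.hα hβ1
  rcases lt_or_ge x (((⌊β⌋₊ : ℝ) + 1 - β) / 2 / (β - 1) + 1) with hc | hc
  · exact k1 ⟨g1, hc⟩
  · have := k2 ⟨by linarith, by linarith⟩
    have := this.mirror (by linarith)
    rwa [sub_sub_cancel] at this

theorem Rich.card {x : ℝ} (h : Rich β x) :
    Cardinal.mk {ε : ℕ → ℕ | IsExpansion β ε x ∧ IsBalanced ⌊β⌋₊ ε} = Cardinal.continuum := by
  apply le_antisymm
  · refine (Cardinal.mk_set_le _).trans ?_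
    simp
  · obtain ⟨f, hf1, hf2⟩ := h
    have h1 : Cardinal.mk (ℕ → Bool) ≤
        Cardinal.mk {ε : ℕ → ℕ | IsExpansion β ε x ∧ IsBalanced ⌊β⌋₊ ε} := by
      refine Cardinal.mk_le_of_injective (f := fun b => ⟨f b, hf2 b⟩) ?_
      intro b b' hb
      exact hf1 (congrArg Subtype.val hb)
    refine le_trans (le_of_eq ?_) h1
    simp

end extend

end Pool.Agent.Helper46.Balanced
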